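import Pool.Agent.Y466.FT.Defs

/-!
# Colourings of sliced diagrams

The number of the Fox colourings of a word, as a function of the colours of the strands above it.
-/

set_option autoImplicit false

namespace Pool.Agent.Y466.SH

open Pool.Agent.H835R2 Pool.Agent.H835R2.Knot

section
variable {R : Type} [CommRing R]

/-- Two new strands of colour `a`. -/
def ins (i : ℕ) (a : R) (s : ℕ → R) : ℕ → R :=
  fun p => if p < i then s p else if p < i + 2 then a else s (p - 2)

/-- Two strands are removed. -/
def rem (i : ℕ) (s : ℕ → R) : ℕ → R := fun p => if p < i then s p else s (p + 2)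

/-- The colours below a crossing `pos i`. -/
def cpos (i : ℕ) (s : ℕ → R) : ℕ → R :=
  fun p => if p = i then s (i + 1) else if p = i + 1 then 2 * s (i + 1) - s i else s p

/-- The colours below a crossing `neg i`. -/
def cneg (i : ℕ) (s : ℕ → R) : ℕ → R :=
  fun p => if p = i then 2 * s i - s (i + 1) else if p = i + 1 then s i else s p

theorem cpos_cneg (i : ℕ) (s : ℕ → R) : cpos i (cneg i s) = s := by
  funext p
  by_cases h1 : p = i
  · subst h1; simp [cpos, cneg]
  · by_cases h2 : p = i + 1
    · subst h2; simp [cpos, cneg]
    · simp [cpos, cneg, h1, h2]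

theorem cneg_cpos (i : ℕ) (s : ℕ → R) : cneg i (cpos i s) = s := by
  funext p
  by_cases h1 : p = i
  · subst h1; simp [cpos, cneg]
  · by_cases h2 : p = i + 1
    · subst h2; simp [cpos, cneg]
    · simp [cpos, cneg, h1, h2]

variable [Fintype R] [DecidableEq R]

/-- The number of the colourings of a word with given colours of the strands above it. -/
def cnt : Word → (ℕ → R) → ℕ
  | [], _ => 1
  | .birth i _ :: w, s => ∑ a : R, cnt w (ins i a s)
  | .death i :: w, s => if s i = s (i + 1) then cnt w (rem i s) else 0
  | .pos i :: w, s => cnt w (cpos i s)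
  | .neg i :: w, s => cnt w (cneg i s)

theorem cnt_birth (i : ℕ) (b : Bool) (w : Word) (s : ℕ → R) :
    cnt (.birth i b :: w) s = ∑ a : R, cnt w (ins i a s) := rfl
theorem cnt_death (i : ℕ) (w : Word) (s : ℕ → R) :
    cnt (.death i :: w) s = if s i = s (i + 1) then cnt w (rem i s) else 0 := rfl
theorem cnt_pos (i : ℕ) (w : Word) (s : ℕ → R) : cnt (.pos i :: w) s = cnt w (cpos i s) := rfl
theorem cnt_neg (i : ℕ) (w : Word) (s : ℕ → R) : cnt (.neg i :: w) s = cnt w (cneg i s) := rfl

/-! ### Commutation of two pieces -/

section comm
variable {i j : ℕ} (s : ℕ → R) (a b : R)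

omit [Fintype R] [DecidableEq R]

theorem ins_ins (h : i ≤ j) : ins (j + 2) b (ins i a s) = ins i a (ins j b s) := by
  funext p
  simp only [ins, rem, cpos, cneg]
  split_ifs <;> first
    | rfl
    | (exfalso; omega)
    | (congr 1; omega)
    | (congr 2 <;> first | rfl | (congr 1; omega) | omega)
    | (congr 3 <;> first | rfl | (congr 1; omega) | omega)

theorem ins_rem (h : i ≤ j) : rem (j + 2) (ins i a s) = ins i a (rem j s) := by
  funext p
  simp only [ins, rem, cpos, cneg]
  split_ifs <;> first
    | rfl
    | (exfalso; omega)
    | (congr 1; omega)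
    | (congr 2 <;> first | rfl | (congr 1; omega) | omega)
    | (congr 3 <;> first | rfl | (congr 1; omega) | omega)

theorem ins_cpos (h : i ≤ j) : cpos (j + 2) (ins i a s) = ins i a (cpos j s) := by
  funext p
  simp only [ins, rem, cpos, cneg]
  split_ifs <;> first
    | rfl
    | (exfalso; omega)
    | (congr 1; omega)
    | (congr 2 <;> first | rfl | (congr 1; omega) | omega)
    | (congr 3 <;> first | rfl | (congr 1; omega) | omega)

theorem ins_cneg (h : i ≤ j) : cneg (j + 2) (ins i a s) = ins i a (cneg j s) := by
  funext p
  simp only [ins, rem, cpos, cneg]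
  split_ifs <;> first
    | rfl
    | (exfalso; omega)
    | (congr 1; omega)
    | (congr 2 <;> first | rfl | (congr 1; omega) | omega)
    | (congr 3 <;> first | rfl | (congr 1; omega) | omega)

theorem rem_ins (h : i + 2 ≤ j) : ins (j - 2) b (rem i s) = rem i (ins j b s) := by
  funext p
  simp only [ins, rem, cpos, cneg]
  split_ifs <;> first
    | rfl
    | (exfalso; omega)
    | (congr 1; omega)
    | (congr 2 <;> first | rfl | (congr 1; omega) | omega)
    | (congr 3 <;> first | rfl | (congr 1; omega) | omega)

theorem rem_rem (h : i + 2 ≤ j) : rem (j - 2) (rem i s) = rem i (rem j s) := by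
  funext p
  simp only [ins, rem, cpos, cneg]
  split_ifs <;> first
    | rfl
    | (exfalso; omega)
    | (congr 1; omega)
    | (congr 2 <;> first | rfl | (congr 1; omega) | omega)
    | (congr 3 <;> first | rfl | (congr 1; omega) | omega)

theorem rem_cpos (h : i + 2 ≤ j) : cpos (j - 2) (rem i s) = rem i (cpos j s) := by
  funext p
  simp only [ins, rem, cpos, cneg]
  split_ifs <;> first
    | rfl
    | (exfalso; omega)
    | (congr 1; omega)
    | (congr 2 <;> first | rfl | (congr 1; omega) | omega)
    | (congr 3 <;> first | rfl | (congr 1; omega) | omega)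

theorem rem_cneg (h : i + 2 ≤ j) : cneg (j - 2) (rem i s) = rem i (cneg j s) := by
  funext p
  simp only [ins, rem, cpos, cneg]
  split_ifs <;> first
    | rfl
    | (exfalso; omega)
    | (congr 1; omega)
    | (congr 2 <;> first | rfl | (congr 1; omega) | omega)
    | (congr 3 <;> first | rfl | (congr 1; omega) | omega)

theorem cpos_ins (h : i + 2 ≤ j) : ins j b (cpos i s) = cpos i (ins j b s) := by
  funext p
  simp only [ins, rem, cpos, cneg]
  split_ifs <;> first
    | rfl
    | (exfalso; omega)
    | (congr 1; omega)
    | (congr 2 <;> first | rfl | (congr 1; omega) | omega)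
    | (congr 3 <;> first | rfl | (congr 1; omega) | omega)

theorem cneg_ins (h : i + 2 ≤ j) : ins j b (cneg i s) = cneg i (ins j b s) := by
  funext p
  simp only [ins, rem, cpos, cneg]
  split_ifs <;> first
    | rfl
    | (exfalso; omega)
    | (congr 1; omega)
    | (congr 2 <;> first | rfl | (congr 1; omega) | omega)
    | (congr 3 <;> first | rfl | (congr 1; omega) | omega)

theorem cpos_rem (h : i + 2 ≤ j) : rem j (cpos i s) = cpos i (rem j s) := by
  funext p
  simp only [ins, rem, cpos, cneg]
  split_ifs <;> first
    | rfl
    | (exfalso; omega)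
    | (congr 1; omega)
    | (congr 2 <;> first | rfl | (congr 1; omega) | omega)
    | (congr 3 <;> first | rfl | (congr 1; omega) | omega)

theorem cneg_rem (h : i + 2 ≤ j) : rem j (cneg i s) = cneg i (rem j s) := by
  funext p
  simp only [ins, rem, cpos, cneg]
  split_ifs <;> first
    | rfl
    | (exfalso; omega)
    | (congr 1; omega)
    | (congr 2 <;> first | rfl | (congr 1; omega) | omega)
    | (congr 3 <;> first | rfl | (congr 1; omega) | omega)

theorem cpos_cpos (h : i + 2 ≤ j) : cpos j (cpos i s) = cpos i (cpos j s) := by
  funext p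
  simp only [ins, rem, cpos, cneg]
  split_ifs <;> first
    | rfl
    | (exfalso; omega)
    | (congr 1; omega)
    | (congr 2 <;> first | rfl | (congr 1; omega) | omega)
    | (congr 3 <;> first | rfl | (congr 1; omega) | omega)

theorem cneg_cneg (h : i + 2 ≤ j) : cneg j (cneg i s) = cneg i (cneg j s) := by
  funext p
  simp only [ins, rem, cpos, cneg]
  split_ifs <;> first
    | rfl
    | (exfalso; omega)
    | (congr 1; omega)
    | (congr 2 <;> first | rfl | (congr 1; omega) | omega)
    | (congr 3 <;> first | rfl | (congr 1; omega) | omega)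

theorem cpos_cneg' (h : i + 2 ≤ j) : cneg j (cpos i s) = cpos i (cneg j s) := by
  funext p
  simp only [ins, rem, cpos, cneg]
  split_ifs <;> first
    | rfl
    | (exfalso; omega)
    | (congr 1; omega)
    | (congr 2 <;> first | rfl | (congr 1; omega) | omega)
    | (congr 3 <;> first | rfl | (congr 1; omega) | omega)

theorem cneg_cpos' (h : i + 2 ≤ j) : cpos j (cneg i s) = cneg i (cpos j s) := by
  funext p
  simp only [ins, rem, cpos, cneg]
  split_ifs <;> first
    | rfl
    | (exfalso; omega)
    | (congr 1; omega)
    | (congr 2 <;> first | rfl | (congr 1; omega) | omega)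
    | (congr 3 <;> first | rfl | (congr 1; omega) | omega)

end comm

/-! ### The moves -/

theorem cnt_exchange (p q : Piece) (h : p.index + p.ins ≤ q.index) (y : Word) (s : ℕ → R) :
    cnt ([p, q.moved (q.index + p.outs - p.ins)] ++ y) s = cnt ([q, p] ++ y) s := by
  cases p with
  | birth i b =>
    cases q with
    | birth j c =>
      have h' : i ≤ j := h
      show ∑ a : R, ∑ a' : R, cnt y (ins (j + 2) a' (ins i a s)) =
        ∑ a' : R, ∑ a : R, cnt y (ins i a (ins j a' s))
      rw [Finset.sum_comm]
      simp only [ins_ins s _ _ h']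
    | death j =>
      have h' : i ≤ j := h
      show ∑ a : R, (if (ins i a s) (j + 2) = (ins i a s) (j + 2 + 1) then
        cnt y (rem (j + 2) (ins i a s)) else 0) =
        if s j = s (j + 1) then ∑ a : R, cnt y (ins i a (rem j s)) else 0
      have e1 : ∀ a : R, (ins i a s) (j + 2) = s j := fun a => by
        unfold ins
        rw [if_neg (by omega), if_neg (by omega)]; rfl
      have e2 : ∀ a : R, (ins i a s) (j + 2 + 1) = s (j + 1) := fun a => by
        unfold ins
        rw [if_neg (by omega), if_neg (by omega)]; rfl
      simp only [e1, e2, ins_rem s _ h']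
      split_ifs
      · rfl
      · simp
    | pos j =>
      have h' : i ≤ j := h
      show ∑ a : R, cnt y (cpos (j + 2) (ins i a s)) = ∑ a : R, cnt y (ins i a (cpos j s))
      simp only [ins_cpos s _ h']
    | neg j =>
      have h' : i ≤ j := h
      show ∑ a : R, cnt y (cneg (j + 2) (ins i a s)) = ∑ a : R, cnt y (ins i a (cneg j s))
      simp only [ins_cneg s _ h']
  | death i =>
    cases q with
    | birth j c =>
      have h' : i + 2 ≤ j := h
      show (if s i = s (i + 1) then ∑ a : R, cnt y (ins (j - 2) a (rem i s)) else 0) =
        ∑ a : R, (if (ins j a s) i = (ins j a s) (i + 1) then cnt y (rem i (ins j a s)) else 0)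
      have e1 : ∀ a : R, (ins j a s) i = s i := fun a => by
        unfold ins
        rw [if_pos (by omega)]
      have e2 : ∀ a : R, (ins j a s) (i + 1) = s (i + 1) := fun a => by
        unfold ins
        rw [if_pos (by omega)]
      simp only [e1, e2, rem_ins s _ h']
      split_ifs
      · rfl
      · simp
    | death j =>
      have h' : i + 2 ≤ j := h
      show (if s i = s (i + 1) then (if (rem i s) (j - 2) = (rem i s) (j - 2 + 1) then
          cnt y (rem (j - 2) (rem i s)) else 0) else 0) =
        (if s j = s (j + 1) then (if (rem j s) i = (rem j s) (i + 1) then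
          cnt y (rem i (rem j s)) else 0) else 0)
      have e1 : (rem i s) (j - 2) = s j := by
        unfold rem
        rw [if_neg (by omega)]; congr 1; omega
      have e2 : (rem i s) (j - 2 + 1) = s (j + 1) := by
        unfold rem
        rw [if_neg (by omega)]; congr 1; omega
      have e3 : (rem j s) i = s i := by
        unfold rem
        rw [if_pos (by omega)]
      have e4 : (rem j s) (i + 1) = s (i + 1) := by
        unfold rem
        rw [if_pos (by omega)]
      rw [e1, e2, e3, e4, rem_rem s h']
      split_ifs <;> rfl
    | pos j =>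
      have h' : i + 2 ≤ j := h
      show (if s i = s (i + 1) then cnt y (cpos (j - 2) (rem i s)) else 0) =
        (if (cpos j s) i = (cpos j s) (i + 1) then cnt y (rem i (cpos j s)) else 0)
      have e3 : (cpos j s) i = s i := by
        unfold cpos
        rw [if_neg (by omega), if_neg (by omega)]
      have e4 : (cpos j s) (i + 1) = s (i + 1) := by
        unfold cpos
        rw [if_neg (by omega), if_neg (by omega)]
      rw [e3, e4, rem_cpos s h']
    | neg j =>
      have h' : i + 2 ≤ j := h
      show (if s i = s (i + 1) then cnt y (cneg (j - 2) (rem i s)) else 0) =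
        (if (cneg j s) i = (cneg j s) (i + 1) then cnt y (rem i (cneg j s)) else 0)
      have e3 : (cneg j s) i = s i := by
        unfold cneg
        rw [if_neg (by omega), if_neg (by omega)]
      have e4 : (cneg j s) (i + 1) = s (i + 1) := by
        unfold cneg
        rw [if_neg (by omega), if_neg (by omega)]
      rw [e3, e4, rem_cneg s h']
  | pos i =>
    cases q with
    | birth j c =>
      have h' : i + 2 ≤ j := h
      show ∑ a : R, cnt y (ins j a (cpos i s)) = ∑ a : R, cnt y (cpos i (ins j a s))
      simp only [cpos_ins s _ h']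
    | death j =>
      have h' : i + 2 ≤ j := h
      show (if (cpos i s) j = (cpos i s) (j + 1) then cnt y (rem j (cpos i s)) else 0) =
        if s j = s (j + 1) then cnt y (cpos i (rem j s)) else 0
      have e3 : (cpos i s) j = s j := by
        unfold cpos
        rw [if_neg (by omega), if_neg (by omega)]
      have e4 : (cpos i s) (j + 1) = s (j + 1) := by
        unfold cpos
        rw [if_neg (by omega), if_neg (by omega)]
      rw [e3, e4, cpos_rem s h']
    | pos j =>
      have h' : i + 2 ≤ j := h
      show cnt y (cpos j (cpos i s)) = cnt y (cpos i (cpos j s))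
      rw [cpos_cpos s h']
    | neg j =>
      have h' : i + 2 ≤ j := h
      show cnt y (cneg j (cpos i s)) = cnt y (cpos i (cneg j s))
      rw [cpos_cneg' s h']
  | neg i =>
    cases q with
    | birth j c =>
      have h' : i + 2 ≤ j := h
      show ∑ a : R, cnt y (ins j a (cneg i s)) = ∑ a : R, cnt y (cneg i (ins j a s))
      simp only [cneg_ins s _ h']
    | death j =>
      have h' : i + 2 ≤ j := h
      show (if (cneg i s) j = (cneg i s) (j + 1) then cnt y (rem j (cneg i s)) else 0) =
        if s j = s (j + 1) then cnt y (cneg i (rem j s)) else 0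
      have e3 : (cneg i s) j = s j := by
        unfold cneg
        rw [if_neg (by omega), if_neg (by omega)]
      have e4 : (cneg i s) (j + 1) = s (j + 1) := by
        unfold cneg
        rw [if_neg (by omega), if_neg (by omega)]
      rw [e3, e4, cneg_rem s h']
    | pos j =>
      have h' : i + 2 ≤ j := h
      show cnt y (cpos j (cneg i s)) = cnt y (cneg i (cpos j s))
      rw [cneg_cpos' s h']
    | neg j =>
      have h' : i + 2 ≤ j := h
      show cnt y (cneg j (cneg i s)) = cnt y (cneg i (cneg j s))
      rw [cneg_cneg s h']

/-- A sum with one non-zero summand. -/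
theorem sum_one (x : R) (f : R → ℕ) : (∑ a : R, if a = x then f a else 0) = f x := by
  rw [Finset.sum_ite_eq' Finset.univ x f, if_pos (Finset.mem_univ _)]

theorem sum_refl (x : R) (f : R → ℕ) : ∑ a : R, f a = ∑ a : R, f (2 * x - a) :=
  (Equiv.sum_comp (Equiv.subLeft (2 * x)) f).symm

theorem cnt_move {l r : Word} (m : Move l r) (y : Word) (s : ℕ → R) :
    cnt (l ++ y) s = cnt (r ++ y) s := by
  have n1 : ∀ i : ℕ, ¬ (i + 1 + 1 = i) := by intro i; omega
  have n2 : ∀ i : ℕ, ¬ (i = i + 1 + 1) := by intro i; omega
  have n3 : ∀ i : ℕ, ¬ (i + 1 + 1 < i) := by intro i; omega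
  cases m with
  | exchange p q h => exact cnt_exchange p q h y s
  | zigzag₁ i b =>
    show ∑ a : R, (if (ins i a s) (i + 1) = (ins i a s) (i + 1 + 1) then
      cnt y (rem (i + 1) (ins i a s)) else 0) = cnt y s
    have e1 : ∀ a : R, (ins i a s) (i + 1) = a := fun a => by
      unfold ins; rw [if_neg (by omega), if_pos (by omega)]
    have e2 : ∀ a : R, (ins i a s) (i + 1 + 1) = s i := fun a => by
      unfold ins; rw [if_neg (by omega), if_neg (by omega)]; rfl
    simp only [e1, e2]
    rw [sum_one (s i) (fun a => cnt y (rem (i + 1) (ins i a s)))]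
    congr 1
    funext p
    unfold rem ins
    split_ifs <;> first | rfl | (exfalso; omega) | (congr 1; omega)
  | zigzag₂ i b =>
    show ∑ a : R, (if (ins (i + 1) a s) i = (ins (i + 1) a s) (i + 1) then
      cnt y (rem i (ins (i + 1) a s)) else 0) = cnt y s
    have e1 : ∀ a : R, (ins (i + 1) a s) i = s i := fun a => by
      unfold ins; rw [if_pos (by omega)]
    have e2 : ∀ a : R, (ins (i + 1) a s) (i + 1) = a := fun a => by
      unfold ins; rw [if_neg (by omega), if_pos (by omega)]
    simp only [e1, e2, eq_comm (a := s i)]
    rw [sum_one (s i) (fun a => cnt y (rem i (ins (i + 1) a s)))]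
    congr 1
    funext p
    unfold rem ins
    split_ifs <;> first | rfl | (exfalso; omega) | (congr 1; omega)
  | slideBirth₁ i b =>
    show ∑ a : R, cnt y (cpos (i + 1) (ins i a s)) = ∑ a : R, cnt y (cneg i (ins (i + 1) a s))
    rw [sum_refl (s i)]
    refine Finset.sum_congr rfl fun a _ => ?_
    congr 1
    funext p
    have e0 : i + 1 + 1 - 2 = i := by omega
    by_cases h1 : p = i
    · subst h1; simp [cpos, cneg, ins, n1, n2, n3]
    · by_cases h2 : p = i + 1
      · subst h2; simp [cpos, cneg, ins, n1, n2, n3]
      · by_cases h3 : p = i + 2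
        · subst h3; simp [cpos, cneg, ins, n1, n2, n3]
        · simp only [cpos, cneg, ins]
          split_ifs <;> first | rfl | (exfalso; omega) | (congr 1; omega)
  | slideBirth₂ i b =>
    show ∑ a : R, cnt y (cneg (i + 1) (ins i a s)) = ∑ a : R, cnt y (cpos i (ins (i + 1) a s))
    refine Finset.sum_congr rfl fun a _ => ?_
    congr 1
    funext p
    have e0 : i + 1 + 1 - 2 = i := by omega
    by_cases h1 : p = i
    · subst h1; simp [cpos, cneg, ins, n1, n2, n3]
    · by_cases h2 : p = i + 1
      · subst h2; simp [cpos, cneg, ins, n1, n2, n3]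
      · by_cases h3 : p = i + 2
        · subst h3; simp [cpos, cneg, ins, n1, n2, n3]
        · simp only [cpos, cneg, ins]
          split_ifs <;> first | rfl | (exfalso; omega) | (congr 1; omega)
  | slideDeath₁ i =>
    show (if (cpos (i + 1) s) i = (cpos (i + 1) s) (i + 1) then cnt y (rem i (cpos (i + 1) s))
      else 0) = (if (cneg i s) (i + 1) = (cneg i s) (i + 1 + 1) then cnt y (rem (i + 1) (cneg i s))
      else 0)
    have e1 : (cpos (i + 1) s) i = s i := by simp [cpos, n2]
    have e2 : (cpos (i + 1) s) (i + 1) = s (i + 2) := by simp [cpos]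
    have e3 : (cneg i s) (i + 1) = s i := by simp [cneg]
    have e4 : (cneg i s) (i + 1 + 1) = s (i + 2) := by simp [cneg, n1]
    rw [e1, e2, e3, e4]
    split_ifs with h
    · congr 1
      funext p
      by_cases h1 : p = i
      · subst h1
        simp [cpos, cneg, rem, h]
      · simp only [cpos, cneg, rem]
        split_ifs <;> first | rfl | (exfalso; omega) | (congr 1; omega)
    · rfl
  | slideDeath₂ i =>
    show (if (cneg (i + 1) s) i = (cneg (i + 1) s) (i + 1) then cnt y (rem i (cneg (i + 1) s))
      else 0) = (if (cpos i s) (i + 1) = (cpos i s) (i + 1 + 1) then cnt y (rem (i + 1) (cpos i s))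
      else 0)
    have e1 : (cneg (i + 1) s) i = s i := by simp [cneg, n2]
    have e2 : (cneg (i + 1) s) (i + 1) = 2 * s (i + 1) - s (i + 2) := by simp [cneg]
    have e3 : (cpos i s) (i + 1) = 2 * s (i + 1) - s i := by simp [cpos]
    have e4 : (cpos i s) (i + 1 + 1) = s (i + 2) := by simp [cpos, n1]
    rw [e1, e2, e3, e4]
    have e5 : s i = 2 * s (i + 1) - s (i + 2) ↔ 2 * s (i + 1) - s i = s (i + 2) := by
      constructor
      · intro h; rw [h]; ring
      · intro h; rw [← h]; ring
    simp only [e5]
    split_ifs with h
    · congr 1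
      funext p
      by_cases h1 : p = i
      · subst h1
        simp [cpos, cneg, rem]
      · simp only [cpos, cneg, rem]
        split_ifs <;> first | rfl | (exfalso; omega) | (congr 1; omega)
    · rfl
  | firstBirthPos i b =>
    show ∑ a : R, cnt y (cpos i (ins i a s)) = ∑ a : R, cnt y (ins i a s)
    refine Finset.sum_congr rfl fun a _ => ?_
    congr 1
    funext p
    unfold cpos ins
    rw [if_neg (show ¬ (i + 1 < i) by omega), if_pos (show i + 1 < i + 2 by omega),
      if_neg (show ¬ (i < i) by omega), if_pos (show i < i + 2 by omega)]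
    have : 2 * a - a = a := by ring
    rw [this]
    split_ifs <;> first | rfl | (exfalso; omega)
  | firstBirthNeg i b =>
    show ∑ a : R, cnt y (cneg i (ins i a s)) = ∑ a : R, cnt y (ins i a s)
    refine Finset.sum_congr rfl fun a _ => ?_
    congr 1
    funext p
    unfold cneg ins
    rw [if_neg (show ¬ (i + 1 < i) by omega), if_pos (show i + 1 < i + 2 by omega),
      if_neg (show ¬ (i < i) by omega), if_pos (show i < i + 2 by omega)]
    have : 2 * a - a = a := by ring
    rw [this]
    split_ifs <;> first | rfl | (exfalso; omega)
  | firstDeathPos i =>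
    show (if (cpos i s) i = (cpos i s) (i + 1) then cnt y (rem i (cpos i s)) else 0) =
      if s i = s (i + 1) then cnt y (rem i s) else 0
    have e1 : (cpos i s) i = s (i + 1) := by simp [cpos]
    have e2 : (cpos i s) (i + 1) = 2 * s (i + 1) - s i := by simp [cpos]
    rw [e1, e2]
    have e5 : s (i + 1) = 2 * s (i + 1) - s i ↔ s i = s (i + 1) := by
      constructor
      · intro h; linear_combination h
      · intro h; rw [h]; ring
    simp only [e5]
    have e6 : rem i (cpos i s) = rem i s := by
      funext p
      simp only [ins, rem, cpos, cneg]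
      split_ifs <;> first
        | rfl
        | (exfalso; omega)
        | (congr 1; omega)
        | (congr 2 <;> first | rfl | (congr 1; omega) | omega)
        | (congr 3 <;> first | rfl | (congr 1; omega) | omega)
    rw [e6]
  | firstDeathNeg i =>
    show (if (cneg i s) i = (cneg i s) (i + 1) then cnt y (rem i (cneg i s)) else 0) =
      if s i = s (i + 1) then cnt y (rem i s) else 0
    have e1 : (cneg i s) i = 2 * s i - s (i + 1) := by simp [cneg]
    have e2 : (cneg i s) (i + 1) = s i := by simp [cneg]
    rw [e1, e2]
    have e5 : 2 * s i - s (i + 1) = s i ↔ s i = s (i + 1) := by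
      constructor
      · intro h; linear_combination h
      · intro h; rw [h]; ring
    simp only [e5]
    have e6 : rem i (cneg i s) = rem i s := by
      funext p
      simp only [ins, rem, cpos, cneg]
      split_ifs <;> first
        | rfl
        | (exfalso; omega)
        | (congr 1; omega)
        | (congr 2 <;> first | rfl | (congr 1; omega) | omega)
        | (congr 3 <;> first | rfl | (congr 1; omega) | omega)
    rw [e6]
  | second₁ i =>
    show cnt y (cneg i (cpos i s)) = cnt y s
    rw [cneg_cpos]
  | second₂ i =>
    show cnt y (cpos i (cneg i s)) = cnt y s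
    rw [cpos_cneg]
  | third i =>
    show cnt y (cpos i (cpos (i + 1) (cpos i s))) = cnt y (cpos (i + 1) (cpos i (cpos (i + 1) s)))
    congr 1
    funext p
    by_cases h1 : p = i
    · subst h1; simp [cpos, n1, n2]
    · by_cases h2 : p = i + 1
      · subst h2; simp [cpos, n1, n2]
      · by_cases h3 : p = i + 2
        · subst h3; simp [cpos, n1, n2]; ring
        · have h4 : ¬ (p = i + 1 + 1) := h3
          simp [cpos, h1, h2, h4]

/-- Isotopic diagrams have the same number of colourings. -/
theorem cnt_iso {D E : Word} (h : Isotopic D E) (s : ℕ → R) : cnt D s = cnt E s := by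
  have ctx : ∀ (x l r : Word), (∀ s : ℕ → R, cnt l s = cnt r s) →
      ∀ s : ℕ → R, cnt (x ++ l) s = cnt (x ++ r) s := by
    intro x l r h
    induction x with
    | nil => exact h
    | cons p x ih =>
      intro s
      cases p with
      | birth i b => exact Finset.sum_congr rfl fun a _ => ih _
      | death i =>
        show (if s i = s (i + 1) then cnt (x ++ l) (rem i s) else 0) =
          (if s i = s (i + 1) then cnt (x ++ r) (rem i s) else 0)
        rw [ih]
      | pos i => exact ih _
      | neg i => exact ih _
  induction h with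
  | rel D E h =>
    obtain ⟨x, l, r, y, m, h1, h2⟩ := h
    rw [List.append_assoc, List.append_assoc]
    exact ctx x _ _ (fun s => cnt_move m y s) s
  | refl D => rfl
  | symm D E _ ih => exact ih.symm
  | trans D E F _ _ ih1 ih2 => exact ih1.trans ih2

/-- A part of a diagram which multiplies the number of colourings. -/
theorem cnt_ctx (x l r : Word) (N : ℕ) (h : ∀ s : ℕ → R, cnt l s = N * cnt r s) (s : ℕ → R) :
    cnt (x ++ l) s = N * cnt (x ++ r) s := by
  induction x generalizing s with
  | nil => exact h s
  | cons p x ih =>
    cases p with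
    | birth i b =>
      show ∑ a : R, cnt (x ++ l) (ins i a s) = N * ∑ a : R, cnt (x ++ r) (ins i a s)
      rw [Finset.mul_sum]
      exact Finset.sum_congr rfl fun a _ => ih _
    | death i =>
      show (if s i = s (i + 1) then cnt (x ++ l) (rem i s) else 0) =
        N * (if s i = s (i + 1) then cnt (x ++ r) (rem i s) else 0)
      rw [ih, mul_ite, mul_zero]
    | pos i => exact ih _
    | neg i => exact ih _

/-- There are constant colourings. -/
theorem cnt_pos' (D : Word) (a : R) : 0 < cnt D (fun _ => a) := by
  induction D with
  | nil => exact Nat.one_pos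
  | cons p D ih =>
    cases p with
    | birth i b =>
      have e : ins i a (fun _ : ℕ => a) = fun _ => a := by
        funext p; simp [ins]
      have h : cnt D (ins i a (fun _ : ℕ => a)) ≤ ∑ c : R, cnt D (ins i c fun _ => a) :=
        Finset.single_le_sum (f := fun c : R => cnt D (ins i c fun _ => a))
          (fun _ _ => Nat.zero_le _) (Finset.mem_univ a)
      rw [e] at h
      exact lt_of_lt_of_le ih h
    | death i =>
      have e : rem i (fun _ : ℕ => a) = fun _ => a := by
        funext p; simp [rem]
      show 0 < if _ then cnt D (rem i fun _ => a) else 0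
      rw [if_pos rfl, e]
      exact ih
    | pos i =>
      have e : cpos i (fun _ : ℕ => a) = fun _ => a := by
        funext p
        have : 2 * a - a = a := by ring
        simp [cpos, this]
      show 0 < cnt D (cpos i fun _ => a)
      rw [e]
      exact ih
    | neg i =>
      have e : cneg i (fun _ : ℕ => a) = fun _ => a := by
        funext p
        have : 2 * a - a = a := by ring
        simp [cneg, this]
      show 0 < cnt D (cneg i fun _ => a)
      rw [e]
      exact ih

end

end Pool.Agent.Y466.SH
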