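import Mathlib

/-!
# Short words deep in the lower central series of the free group

The words `Q k` with `Q (k+3) = Q k (Q (k+1))⁻¹ U (k+2) Q (k+1)`, `U (k+2) = Q (k+2) (Q k)⁻¹`
(Elkasapy, Thom), and the iterated commutators `c k = (Q (k-1))⁻¹ Q k`.
-/

set_option autoImplicit false

namespace Pool.Agent.Y466.SH

/-- Words in `a = (false, true)`, `b = (true, true)` and their inverses. -/
abbrev FL : Type := List (Bool × Bool)

/-- The inverse word. -/
def finv (w : FL) : FL := (w.map fun l => (l.1, !l.2)).reverse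

theorem finv_eq (w : FL) : finv w = FreeGroup.invRev w := rfl

theorem length_finv (w : FL) : (finv w).length = w.length := by simp [finv]

theorem mk_finv (w : FL) : FreeGroup.mk (finv w) = (FreeGroup.mk w)⁻¹ := by
  rw [finv_eq, FreeGroup.inv_mk]

theorem mk_append (v w : FL) : FreeGroup.mk (v ++ w) = FreeGroup.mk v * FreeGroup.mk w :=
  FreeGroup.mul_mk.symm

/-- The words `Q k, Q (k+1), Q (k+2), U (k+2)`. -/
def qs : ℕ → FL × FL × FL × FL
  | 0 => ([], [(false, true)], [(true, false), (false, true), (true, true)],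
      [(true, false), (false, true), (true, true)])
  | k + 1 => ((qs k).2.1, (qs k).2.2.1,
      ((qs k).1 ++ finv (qs k).2.1 ++ (qs k).2.2.2) ++ (qs k).2.1,
      (qs k).1 ++ finv (qs k).2.1 ++ (qs k).2.2.2)

/-- The words `Q k`. -/
def Q (k : ℕ) : FL := (qs k).1

theorem qs_two (k : ℕ) : (qs k).2.1 = Q (k + 1) := rfl
theorem qs_three (k : ℕ) : (qs k).2.2.1 = Q (k + 2) := rfl

/-- The words `c k`. -/
def cw : ℕ → FL
  | 0 => [(true, true)]
  | k + 1 => finv (Q k) ++ Q (k + 1)

theorem cw_succ (k : ℕ) : cw (k + 1) = finv (Q k) ++ Q (k + 1) := rfl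

theorem U_eq (k : ℕ) : FreeGroup.mk (qs k).2.2.2 =
    FreeGroup.mk (Q (k + 2)) * (FreeGroup.mk (Q k))⁻¹ := by
  cases k with
  | zero =>
    have : FreeGroup.mk (Q 0) = (1 : FreeGroup Bool) := rfl
    rw [this, inv_one, mul_one]
    rfl
  | succ k =>
    rw [← qs_three]
    show FreeGroup.mk ((qs k).1 ++ finv (qs k).2.1 ++ (qs k).2.2.2) =
      FreeGroup.mk (((qs k).1 ++ finv (qs k).2.1 ++ (qs k).2.2.2) ++ (qs k).2.1) *
      (FreeGroup.mk (qs k).2.1)⁻¹
    rw [mk_append _ (qs k).2.1, mul_inv_cancel_right]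

theorem Q_rec (k : ℕ) : FreeGroup.mk (Q (k + 3)) = FreeGroup.mk (Q k) *
    (FreeGroup.mk (Q (k + 1)))⁻¹ * FreeGroup.mk (Q (k + 2)) * (FreeGroup.mk (Q k))⁻¹ *
    FreeGroup.mk (Q (k + 1)) := by
  have : Q (k + 3) = ((qs k).1 ++ finv (qs k).2.1 ++ (qs k).2.2.2) ++ (qs k).2.1 := rfl
  rw [this, mk_append, mk_append, mk_append, mk_finv, U_eq, qs_two]
  show FreeGroup.mk (Q k) * _ * _ * _ = _
  simp only [mul_assoc]

/-- The commutator relation. -/
theorem cw_rec (k : ℕ) : FreeGroup.mk (cw (k + 2)) = (FreeGroup.mk (cw (k + 1)))⁻¹ *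
    (FreeGroup.mk (cw k))⁻¹ * FreeGroup.mk (cw (k + 1)) * FreeGroup.mk (cw k) := by
  cases k with
  | zero => rfl
  | succ k =>
    rw [cw_succ (k + 2), cw_succ (k + 1), cw_succ k]
    simp only [mk_append, mk_finv]
    have h := Q_rec k
    rw [show k + 2 + 1 = k + 3 from rfl, show k + 1 + 1 = k + 2 from rfl, h]
    group

theorem len_U (k : ℕ) : (qs k).2.2.2.length + (Q k).length = (Q (k + 2)).length := by
  cases k with
  | zero => rfl
  | succ k =>
    have h1 : (qs (k + 1)).2.2.2.length = ((qs k).1 ++ finv (qs k).2.1 ++ (qs k).2.2.2).length := rfl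
    have h2 : (Q (k + 3)).length =
      (((qs k).1 ++ finv (qs k).2.1 ++ (qs k).2.2.2) ++ (qs k).2.1).length := rfl
    have h3 : (Q (k + 1)).length = ((qs k).2.1).length := rfl
    rw [show k + 1 + 2 = k + 3 from rfl, h1, h2, h3]
    exact List.length_append.symm

theorem len_Q (k : ℕ) : (Q (k + 3)).length = (Q (k + 2)).length + 2 * (Q (k + 1)).length := by
  have h2 : (Q (k + 3)).length =
    (((qs k).1 ++ finv (qs k).2.1 ++ (qs k).2.2.2) ++ (qs k).2.1).length := rfl
  have h3 := len_U k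
  have h4 : (qs k).1.length = (Q k).length := rfl
  have h5 : (qs k).2.1.length = (Q (k + 1)).length := rfl
  rw [h2, List.length_append, List.length_append, List.length_append, length_finv, h4, h5]
  omega

theorem len_sum (k : ℕ) : (Q (k + 1)).length + (Q (k + 2)).length = 2 ^ (k + 2) := by
  induction k with
  | zero => rfl
  | succ k ih =>
    rw [show k + 1 + 2 = k + 3 from rfl, show k + 1 + 1 = k + 2 from rfl, len_Q, pow_succ, ← ih]
    ring

theorem length_cw (k : ℕ) : (cw (k + 2)).length = 2 ^ (k + 2) := by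
  rw [show k + 2 = (k + 1) + 1 from rfl, cw_succ, List.length_append, length_finv]
  exact len_sum k

end Pool.Agent.Y466.SH
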