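import Pool.Agent.Y466.FT.Base

/-!
# Commutators and the degree
-/

set_option autoImplicit false

namespace Pool.Agent.Y466.FT

section
variable {M : Type*} [Monoid M] {E R : Set (M × M)}

theorem Dg.succ {A : Type*} [AddCommGroup A] {n : ℕ} {φ : M → A} (h : Dg E n φ) :
    Dg E (n + 1) φ := by
  induction n generalizing φ with
  | zero =>
    intro e _ a p
    show φ _ - φ _ = 0
    rw [h, h, sub_self]
  | succ n ih =>
    intro e he a
    exact ih (h e he a)

theorem Dg.mono {A : Type*} [AddCommGroup A] {m n : ℕ} (hmn : m ≤ n) {φ : M → A} (h : Dg E m φ) :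
    Dg E n φ := by
  induction hmn with
  | refl => exact h
  | step _ ih => exact ih.succ

/-- The pairs which are not distinguished up to degree `m`: they lower the degree by `m`. -/
def KK (E R : Set (M × M)) (m : ℕ) : Con M where
  r p p' := ∀ (n : ℕ) (A : Type) [AddCommGroup A] (φ : M → A), Dg E (n + m) φ → Iv R φ →
    ∀ a b : M, Dg E n (fun u => φ (a * p * b * u) - φ (a * p' * b * u))
  iseqv := by
    refine ⟨fun p n A _ φ _ _ a b => ?_, fun {p p'} h n A _ φ h1 h2 a b => ?_,
      fun {p p' p''} h h' n A _ φ h1 h2 a b => ?_⟩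
    · simpa using Dg.zero (E := E) (A := A) n
    · exact (h n A φ h1 h2 a b).neg.congr fun u => by abel
    · exact ((h n A φ h1 h2 a b).add (h' n A φ h1 h2 a b)).congr fun u => by abel
  mul' := by
    intro p p' r r' h h' n A _ φ h1 h2 a b
    have e1 := h n A φ h1 h2 a (r * b)
    have e2 := h' n A φ h1 h2 (a * p') b
    refine (e1.add e2).congr fun u => ?_
    simp only [mul_assoc]
    abel

theorem KK_rel (m : ℕ) : ∀ r ∈ R, KK E R m r.1 r.2 := by
  intro r hr n A _ φ _ h2 a b
  have : (fun u => φ (a * r.1 * b * u) - φ (a * r.2 * b * u)) = fun _ => (0 : A) := by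
    funext u
    have := h2 r hr a (b * u)
    simp only [mul_assoc] at this ⊢
    rw [this, sub_self]
  rw [this]
  exact Dg.zero n

theorem KK_mono {m m' : ℕ} (h : m ≤ m') {p p' : M} (hp : KK E R m' p p') : KK E R m p p' := by
  intro n A _ φ h1 h2 a b
  obtain ⟨d, rfl⟩ := Nat.exists_eq_add_of_le h
  -- lower the degree by `m + d` from `n + m + d`, which is more than needed
  have h3 : Dg E (n + (m + d)) φ := h1.mono (by omega)
  exact hp n A φ h3 h2 a b

theorem KK_pure {w : M} (hw : Pu R E w) : KK E R 1 w 1 := by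
  intro n A _ φ h1 h2
  have key : cg E n φ w 1 := by
    refine hw _ (fun r hr a b => ?_) (fun e he a b => ?_)
    · exact KK_rel (E := E) 1 r hr n A φ h1 h2 a b
    · have := (h1 e he a).trans b
      refine this.congr fun u => ?_
      simp only [mul_assoc]
  exact key

theorem Iv.left {A : Type*} {φ : M → A} (h : Iv R φ) (x : M) : Iv R (fun u => φ (x * u)) := by
  intro r hr a b
  have := h r hr (x * a) b
  simp only [mul_assoc] at this ⊢
  exact this

theorem Iv.sub {A : Type*} [AddCommGroup A] {φ ψ : M → A} (h : Iv R φ) (h' : Iv R ψ) :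
    Iv R (fun u => φ u - ψ u) := by
  intro r hr a b
  show φ _ - ψ _ = φ _ - ψ _
  rw [h r hr a b, h' r hr a b]

/-- **Commutators add the degrees.** -/
theorem KK_comm {i j : ℕ} {x y : M} (hx : KK E R i x 1) (hy : KK E R j y 1) :
    KK E R (i + j) (x * y) (y * x) := by
  intro n A _ φ h1 h2 a b
  have key : ∀ (i j : ℕ) (x y : M), KK E R i x 1 → KK E R j y 1 → Dg E (n + (i + j)) φ →
      Dg E n (fun u => (φ (a * x * (y * b * u)) - φ (a * (y * b * u))) -
        (φ (a * x * (b * u)) - φ (a * (b * u)))) := by
    intro i j x y hx hy h1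
    have e1 : Dg E (n + j) (fun u => φ (a * x * u) - φ (a * u)) := by
      have := hx (n + j) A φ (by rw [show n + j + i = n + (i + j) by omega]; exact h1) h2 a 1
      simpa using this
    have e2 : Iv R (fun u => φ (a * x * u) - φ (a * u)) := (h2.left _).sub (h2.left _)
    have := hy n A _ e1 e2 1 b
    refine this.congr fun u => ?_
    simp only [one_mul, mul_one, mul_assoc]
  have k1 := key i j x y hx hy h1
  have k2 := key j i y x hy hx (by rw [Nat.add_comm j i]; exact h1)
  refine (k1.sub k2).congr fun u => ?_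
  simp only [mul_assoc]
  abel

end

end Pool.Agent.Y466.FT
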