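import Pool.Agent.Y466.SH.Tr
import Pool.Agent.Y466.SH.Wt

/-!
# Knots which are not separated by Vassiliev invariants of order at most `n`
-/

set_option autoImplicit false

namespace Pool.Agent.Y466.SH

open Pool.Agent.H835R2 Pool.Agent.H835R2.Knot Pool.Agent.H835R2.Flat Pool.Agent.Y466.FT

/-! ### Weights of words -/

/-- The element of the monoid given by a word. -/
def el (o : ℕ) (L : FL) : Fin 1 → FreeMonoid (Bool × ℕ) :=
  Pi.mulSingle 0 (FreeMonoid.ofList (sh o (bw L)))

theorem sh_append (o : ℕ) (v w : Braid) : sh o (v ++ w) = sh o v ++ sh o w := List.map_append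

theorem el_append (o : ℕ) (L L' : FL) : el o (L ++ L') = el o L * el o L' := by
  unfold el
  rw [bw_append, sh_append, FreeMonoid.ofList_append, Pi.mulSingle_mul]

theorem el_nil (o : ℕ) : el o [] = 1 := Pi.mulSingle_one _

section
variable {o : ℕ} {m : Fin 1 → ℕ}

/-- The letters are on the strands. -/
theorem lt_sh (hm : o + 2 < m 0) (L : FL) : ∀ l ∈ sh o (bw L), l.2 + 1 < m 0 := by
  intro l hl
  obtain ⟨x, hx, rfl⟩ := List.mem_map.1 hl
  have := bw_lt L x hx
  show x.2 + o + 1 < m 0
  omega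

theorem letter_cancel (hm : o + 2 < m 0) {c : Con (Fin 1 → FreeMonoid (Bool × ℕ))}
    (hR : ∀ r ∈ RS m, c r.1 r.2) (x b : Bool) : c (el o [(x, b), (x, !b)]) 1 := by
  set i : ℕ := (if x then 1 else 0) + o with hi
  have hi' : i + 1 < m 0 := by
    rw [hi]; split_ifs <;> omega
  have e : el o [(x, b), (x, !b)] = Pi.mulSingle 0 (FreeMonoid.ofList [(b, i)] *
      FreeMonoid.ofList [(b, i), (!b, i)] * FreeMonoid.ofList [(!b, i)]) := rfl
  have h1 : ∀ b, cl c 0 (FreeMonoid.ofList [(b, i), (!b, i)]) = 1 := fun b => by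
    have := cl_loc hR (Loc.can b i hi')
    exact this.trans (map_one _)
  have h2 : cl c 0 (FreeMonoid.ofList [(b, i)] *
      FreeMonoid.ofList [(b, i), (!b, i)] * FreeMonoid.ofList [(!b, i)]) = 1 := by
    rw [map_mul, map_mul, h1, mul_one, ← map_mul]
    exact h1 b
  rw [e, ← Pi.mulSingle_one (0 : Fin 1)]
  refine cl_eq.1 ?_
  rw [h2, map_one]

theorem el_step (hm : o + 2 < m 0) {c : Con (Fin 1 → FreeMonoid (Bool × ℕ))}
    (hR : ∀ r ∈ RS m, c r.1 r.2) {L L' : FL} (h : FreeGroup.Red.Step L L') :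
    c (el o L) (el o L') := by
  rcases h with @⟨L₁, L₂, x, b⟩
  have e : L₁ ++ (x, b) :: (x, !b) :: L₂ = L₁ ++ [(x, b), (x, !b)] ++ L₂ := by simp
  rw [e, el_append, el_append, el_append]
  have := c.mul (c.mul (c.refl (el o L₁)) (letter_cancel hm hR x b)) (c.refl (el o L₂))
  rwa [mul_one] at this

theorem el_red (hm : o + 2 < m 0) {c : Con (Fin 1 → FreeMonoid (Bool × ℕ))}
    (hR : ∀ r ∈ RS m, c r.1 r.2) {L L' : FL} (h : FreeGroup.Red L L') :
    c (el o L) (el o L') := by
  induction h with
  | refl => exact c.refl _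
  | tail _ h ih => exact c.trans ih (el_step hm hR h)

theorem el_mk (hm : o + 2 < m 0) {c : Con (Fin 1 → FreeMonoid (Bool × ℕ))}
    (hR : ∀ r ∈ RS m, c r.1 r.2) {L L' : FL} (h : FreeGroup.mk L = FreeGroup.mk L') :
    c (el o L) (el o L') := by
  obtain ⟨L'', h1, h2⟩ := FreeGroup.Red.exact.1 h
  exact c.trans (el_red hm hR h1) (c.symm (el_red hm hR h2))

theorem perm_sh (o : ℕ) (L : FL) : IsPure (sh o (bw L)) := by
  unfold IsPure perm
  induction L with
  | nil => rfl
  | cons x L ih =>
    rw [bw_cons, sh_append, List.map_append, List.prod_append, ih, mul_one]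
    show Equiv.swap _ _ * (Equiv.swap _ _ * 1) = 1
    rw [mul_one, Equiv.swap_mul_self]

theorem wt_one (hm : o + 2 < m 0) (L : FL) : KK (ES m) (RS m) 1 (el o L) 1 :=
  KK_pure (pu (lt_sh hm L) (perm_sh o L))

theorem wt_cw (hm : o + 2 < m 0) (k : ℕ) :
    KK (ES m) (RS m) (Nat.fib (k + 1)) (el o (cw k)) 1 ∧
    KK (ES m) (RS m) (Nat.fib (k + 2)) (el o (cw (k + 1))) 1 := by
  induction k with
  | zero => exact ⟨wt_one hm _, wt_one hm _⟩
  | succ k ih =>
    refine ⟨ih.2, ?_⟩
    rw [show k + 1 + 2 = (k + 1) + 2 from rfl, Nat.fib_add_two, Nat.add_comm (Nat.fib (k + 1))]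
    set c := KK (ES m) (RS m) (Nat.fib (k + 1 + 1) + Nat.fib (k + 1)) with hc
    have hR : ∀ r ∈ RS m, c r.1 r.2 := KK_rel _
    have h1 : FreeGroup.mk (cw (k + 1 + 1)) =
        FreeGroup.mk (finv (cw (k + 1)) ++ finv (cw k) ++ cw (k + 1) ++ cw k) := by
      rw [mk_append, mk_append, mk_append, mk_finv, mk_finv]
      exact cw_rec k
    have h2 : c (el o (cw (k + 1) ++ cw k)) (el o (cw k ++ cw (k + 1))) := by
      rw [el_append, el_append]
      exact KK_comm ih.2 ih.1
    have h3 : c (el o (finv (cw (k + 1)) ++ finv (cw k) ++ cw (k + 1) ++ cw k))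
        (el o (finv (cw (k + 1)) ++ finv (cw k) ++ cw k ++ cw (k + 1))) := by
      rw [List.append_assoc _ (cw (k + 1)) (cw k), List.append_assoc _ (cw k) (cw (k + 1)),
        el_append, el_append _ _ (cw k ++ cw (k + 1))]
      exact c.mul (c.refl _) h2
    have h4 : FreeGroup.mk (finv (cw (k + 1)) ++ finv (cw k) ++ cw k ++ cw (k + 1)) =
        FreeGroup.mk ([] : FL) := by
      rw [mk_append, mk_append, mk_append, mk_finv, mk_finv]
      have : FreeGroup.mk ([] : FL) = 1 := rfl
      rw [this]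
      group
    have h5 := c.trans (c.trans (el_mk hm hR h1) h3) (el_mk hm hR h4)
    rwa [el_nil] at h5

theorem wt_inv (hm : o + 2 < m 0) {d : ℕ} {L : FL} (h : KK (ES m) (RS m) d (el o L) 1) :
    KK (ES m) (RS m) d (el o (finv L)) 1 := by
  set c := KK (ES m) (RS m) d with hc
  have hR : ∀ r ∈ RS m, c r.1 r.2 := KK_rel _
  have h1 : FreeGroup.mk (finv L ++ L) = FreeGroup.mk ([] : FL) := by
    rw [mk_append, mk_finv, inv_mul_cancel]
    rfl
  have h2 := el_mk (o := o) hm hR h1
  rw [el_append, el_nil] at h2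
  have h3 : c (el o (finv L) * el o L) (el o (finv L) * 1) := c.mul (c.refl _) h
  rw [mul_one] at h3
  exact c.trans (c.symm h3) h2

end

/-! ### The diagrams -/

/-- The strand which is directed downwards below `birth 0 b`. -/
def od (b : Bool) : ℕ := if b then 0 else 1

/-- The upper part of the diagrams. -/
def u0 (b : Bool) : Word :=
  [.birth 0 b, .birth (od b + 1) true, .birth (od b + 2) true, .pos (od b), .pos (od b + 1)]

/-- The lower part of the diagrams. -/
def u1 (b : Bool) (y : Word) : Word := [.death (od b + 2), .death (od b + 1)] ++ y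

/-- The diagram `birth 0 b, y` with the 1-tangle of the 3-braid `σ₁ σ₂ w` on the strand directed
downwards. -/
def dia (b : Bool) (y : Word) (L : FL) : Word :=
  [.birth 0 b] ++ (tangle (od b) ([(true, 0), (true, 1)] ++ bw L) ++ y)

theorem dia_eq (b : Bool) (y : Word) (L : FL) :
    dia b y L = plug (u0 b) (fun _ : Fin 1 => u1 b y) piece (el (od b) L) := by
  unfold dia tangle plug u0 u1 el
  have e : (FreeMonoid.toList ((Pi.mulSingle (0 : Fin 1)
      (FreeMonoid.ofList (sh (od b) (bw L))) : Fin 1 → FreeMonoid (Bool × ℕ)) 0)) =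
      sh (od b) (bw L) := by
    rw [Pi.mulSingle_eq_same]; rfl
  rw [List.ofFn_succ, List.ofFn_zero, e]
  have e2 : sh (od b) ([(true, 0), (true, 1)] ++ bw L) =
      [(true, od b), (true, od b + 1)] ++ sh (od b) (bw L) := by
    rw [sh_append]
    have : sh (od b) [(true, 0), (true, 1)] = [(true, od b), (true, od b + 1)] := by
      show [(true, 0 + od b), (true, 1 + od b)] = _
      rw [Nat.zero_add, Nat.add_comm]
    rw [this]
  rw [e2]
  simp [draw, piece]

theorem wd_eq (b : Bool) (y : Word) : wd (u0 b) (fun _ : Fin 1 => u1 b y) 0 = 6 := by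
  cases b <;> rfl

theorem wd_lt (b : Bool) (y : Word) :
    od b + 2 < wd (u0 b) (fun _ : Fin 1 => u1 b y) 0 := by
  rw [wd_eq]
  cases b
  · show 1 + 2 < 6; omega
  · show 0 + 2 < 6; omega

/-- The values of the invariants. -/
theorem phi_dia (b : Bool) (y : Word) {n : ℕ} {A : Type} [AddCommGroup A] {v : Word → A}
    (hv : IsInvariant v) (hn : DegreeLE n v) {L : FL} {d : ℕ} (hd : n + 1 ≤ d)
    (h : KK (ES (wd (u0 b) (fun _ : Fin 1 => u1 b y))) (RS (wd (u0 b) (fun _ : Fin 1 => u1 b y))) d
      (el (od b) L) 1) : ext v (dia b y L) = ext v (dia b y []) := by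
  have h1 := dg_phi (u0 b) (fun _ : Fin 1 => u1 b y) hn
  have h2 := iv_phi (u0 b) (fun _ : Fin 1 => u1 b y) hv
  have h3 := h 0 A _ (h1.mono (by omega)) h2 1 1 1
  simp only [one_mul, mul_one] at h3
  rw [dia_eq, dia_eq, el_nil]
  exact sub_eq_zero.1 h3

/-- Isotopy to the original diagram. -/
theorem iso_dia (b : Bool) (y : Word) (h : Closed (.birth 0 b :: y)) :
    Isotopic (.birth 0 b :: y) (dia b y []) := by
  have go : ∀ (x l r y' : Word) (E : Word), (Move l r ∨ Move r l) →
      Isotopic (.birth 0 b :: y) E → E = x ++ l ++ y' →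
      Knot.Fits r (Knot.run x Front.empty) →
      Isotopic (.birth 0 b :: y) (x ++ r ++ y') := by
    intro x l r y' E m h1 h2 h3
    subst h2
    have h4 := (isotopic_closed h1).1 h
    exact h1.trans _ _ _ (iso_step m h4 h3).2
  cases b with
  | true =>
    have h0 : Isotopic (.birth 0 true :: y) (.birth 0 true :: y) := Relation.EqvGen.refl _
    have h1 := go [.birth 0 true] [] [.birth 0 true, .death 1] y _
      (Or.inr (Move.zigzag₁ 0 true)) h0 (by simp) (by decide)
    have h2 := go [.birth 0 true, .birth 0 true] [.death 1] [.neg 1, .death 1] y _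
      (Or.inr (Move.firstDeathNeg 1)) h1 (by simp) (by decide)
    have h3 := go [.birth 0 true] [.birth 0 true, .neg 1] [.birth 1 true, .pos 0] ([.death 1] ++ y) _
      (Or.inl (Move.slideBirth₂ 0 true)) h2 (by simp) (by decide)
    have h4 := go [.birth 0 true, .birth 1 true, .pos 0] [] [.birth 1 true, .death 2]
      ([.death 1] ++ y) _ (Or.inr (Move.zigzag₁ 1 true)) h3 (by simp) (by decide)
    have h5 := go [.birth 0 true, .birth 1 true, .pos 0, .birth 1 true] [.death 2]
      [.neg 2, .death 2] ([.death 1] ++ y) _ (Or.inr (Move.firstDeathNeg 2)) h4 (by simp)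
      (by decide)
    have h6 := go [.birth 0 true, .birth 1 true, .pos 0] [.birth 1 true, .neg 2]
      [.birth 2 true, .pos 1] ([.death 2, .death 1] ++ y) _ (Or.inl (Move.slideBirth₂ 1 true)) h5
      (by simp) (by decide)
    have h7 := go [.birth 0 true, .birth 1 true] [.pos 0, .birth 2 true]
      [.birth 2 true, .pos 0] ([.pos 1, .death 2, .death 1] ++ y) _
      (Or.inl (Move.exchange (.pos 0) (.birth 2 true) (by decide))) h6 (by simp) (by decide)
    have e : dia true y [] = [.birth 0 true, .birth 1 true] ++ [.birth 2 true, .pos 0] ++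
        ([.pos 1, .death 2, .death 1] ++ y) := by
      simp [dia, tangle, od, sh, bw, draw, piece]
    rw [e]
    exact h7
  | false =>
    have h0 : Isotopic (.birth 0 false :: y) (.birth 0 false :: y) := Relation.EqvGen.refl _
    have h1 := go [.birth 0 false] [] [.birth 1 true, .death 2] y _
      (Or.inr (Move.zigzag₁ 1 true)) h0 (by simp) (by decide)
    have h2 := go [.birth 0 false, .birth 1 true] [.death 2] [.neg 2, .death 2] y _
      (Or.inr (Move.firstDeathNeg 2)) h1 (by simp) (by decide)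
    have h3 := go [.birth 0 false] [.birth 1 true, .neg 2] [.birth 2 true, .pos 1]
      ([.death 2] ++ y) _ (Or.inl (Move.slideBirth₂ 1 true)) h2 (by simp) (by decide)
    have h4 := go [.birth 0 false, .birth 2 true, .pos 1] [] [.birth 2 true, .death 3]
      ([.death 2] ++ y) _ (Or.inr (Move.zigzag₁ 2 true)) h3 (by simp) (by decide)
    have h5 := go [.birth 0 false, .birth 2 true, .pos 1, .birth 2 true] [.death 3]
      [.neg 3, .death 3] ([.death 2] ++ y) _ (Or.inr (Move.firstDeathNeg 3)) h4 (by simp)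
      (by decide)
    have h6 := go [.birth 0 false, .birth 2 true, .pos 1] [.birth 2 true, .neg 3]
      [.birth 3 true, .pos 2] ([.death 3, .death 2] ++ y) _ (Or.inl (Move.slideBirth₂ 2 true)) h5
      (by simp) (by decide)
    have h7 := go [.birth 0 false, .birth 2 true] [.pos 1, .birth 3 true]
      [.birth 3 true, .pos 1] ([.pos 2, .death 3, .death 2] ++ y) _
      (Or.inl (Move.exchange (.pos 1) (.birth 3 true) (by decide))) h6 (by simp) (by decide)
    have e : dia false y [] = [.birth 0 false, .birth 2 true] ++ [.birth 3 true, .pos 1] ++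
        ([.pos 2, .death 3, .death 2] ++ y) := by
      simp [dia, tangle, od, sh, bw, draw, piece]
    rw [e]
    exact h7

theorem crossings_append (x y : Word) : crossings (x ++ y) = crossings x + crossings y :=
  List.countP_append

theorem crossings_draw (w : Braid) : crossings (draw w) = w.length := by
  induction w with
  | nil => rfl
  | cons l w ih =>
    have e : draw (l :: w) = [piece l] ++ draw w := rfl
    rw [e, crossings_append, ih, List.length_cons, Nat.add_comm]
    congr 1
    obtain ⟨b, i⟩ := l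
    cases b <;> rfl

theorem crossings_dia (b : Bool) (y : Word) (L : FL) :
    crossings (dia b y L) = crossings (.birth 0 b :: y) + 2 * L.length + 2 := by
  unfold dia tangle
  have e : (.birth 0 b :: y : Word) = [.birth 0 b] ++ y := rfl
  rw [e]
  simp only [crossings_append, crossings_draw]
  have h1 : (sh (od b) ([(true, 0), (true, 1)] ++ bw L)).length = 2 * L.length + 2 := by
    unfold sh
    rw [List.length_map, List.length_append, length_bw]
    simp; omega
  rw [h1]
  have h2 : crossings [Piece.birth (od b + 1) true, .birth (od b + 2) true] = 0 := rfl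
  have h3 : crossings [Piece.death (od b + 2), .death (od b + 1)] = 0 := rfl
  rw [h2, h3]
  omega

theorem exists_birth {D : Word} (hD : IsKnot D) : ∃ b y, D = .birth 0 b :: y := by
  obtain ⟨⟨h1, -⟩, h2⟩ := hD
  cases D with
  | nil => exact absurd h2 (by decide)
  | cons p y =>
    cases p with
    | birth i b =>
      have h3 : i ≤ 0 := h1.1
      have : i = 0 := by omega
      subst this
      exact ⟨b, y, rfl⟩
    | death i =>
      have h3 : i + 2 ≤ 0 := h1.1.1
      omega
    | pos i =>
      have h3 : i + 2 ≤ 0 := h1.1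
      omega
    | neg i =>
      have h3 : i + 2 ≤ 0 := h1.1
      omega

/-- One step: a knot which is not separated from the given one. -/
theorem step (n k : ℕ) (hk : n < Nat.fib (k + 3)) : ∃ p : ℕ, ∃ _ : Fact p.Prime,
    ∀ D : Word, IsKnot D → ∃ D' : Word, IsKnot D' ∧
      cnt (R := ZMod p) D (fun _ => 0) < cnt (R := ZMod p) D' (fun _ => 0) ∧
      crossings D' = crossings D + 2 * 2 ^ (k + 2) + 2 ∧
      ∀ (A : Type) [AddCommGroup A] (v : Word → A), IsInvariant v → DegreeLE n v → v D' = v D := by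
  obtain ⟨L, hL, p, hp, h2⟩ := exists_colour k
  refine ⟨p, hp, fun D hD => ?_⟩
  obtain ⟨b, y, rfl⟩ := exists_birth hD
  have hm := wd_lt b y
  have hwt : KK (ES (wd (u0 b) (fun _ : Fin 1 => u1 b y)))
      (RS (wd (u0 b) (fun _ : Fin 1 => u1 b y))) (Nat.fib (k + 3)) (el (od b) L) 1 := by
    have h3 := (wt_cw hm (k + 1)).2
    rcases hL with rfl | rfl
    · exact h3
    · exact wt_inv hm h3
  have hlen : L.length = 2 ^ (k + 2) := by
    rcases hL with rfl | rfl
    · exact length_cw k
    · rw [length_finv]; exact length_cw k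
  have hiso := iso_dia b y hD.1
  have hK0 : IsKnot (dia b y []) := (isotopic_knot hiso).1 hD
  have hK : IsKnot (dia b y L) := by
    have hd : DegreeLE 0 (fun _ : Word => (1 : ℤ)) := by
      intro D _ S _ hS
      obtain ⟨x, rfl⟩ := Finset.card_eq_one.1 (by simpa using hS)
      rw [show ({x} : Finset ℕ).powerset = {∅, {x}} from rfl]
      rw [Finset.sum_pair (by simp)]
      simp
    have h3 := phi_dia b y (fun _ _ _ _ => rfl) hd (by omega : 0 + 1 ≤ Nat.fib (k + 3)) hwt
    by_contra hc
    rw [ext, if_neg hc, ext, if_pos hK0] at h3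
    exact absurd h3 (by norm_num)
  refine ⟨dia b y L, hK, ?_, ?_, fun A _ v hv hn => ?_⟩
  · have e2 : cnt (R := ZMod p) (dia b y L) (fun _ => 0) =
        fixN (ZMod p) ([(true, 0), (true, 1)] ++ bw L) *
          cnt (R := ZMod p) ([.birth 0 b] ++ y) (fun _ => 0) := by
      unfold dia
      refine cnt_ctx _ _ _ _ (fun s => ?_) _
      refine cnt_tangle _ _ (fun l hl => ?_) _ _
      rcases List.mem_append.1 hl with hl | hl
      · have : l = (true, 0) ∨ l = (true, 1) := by simpa using hl
        rcases this with rfl | rfl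
        · show 0 < 2; omega
        · show 1 < 2; omega
      · exact bw_lt L l hl
    have e3 := cnt_pos' (R := ZMod p) ([.birth 0 b] ++ y) 0
    have e4 : (Piece.birth 0 b :: y : Word) = [.birth 0 b] ++ y := rfl
    rw [e2, e4]
    nlinarith
  · rw [crossings_dia, hlen]
  · have h3 := phi_dia b y hv hn (by omega : n + 1 ≤ Nat.fib (k + 3)) hwt
    rw [ext, if_pos hK, ext, if_pos hK0] at h3
    rw [h3]
    exact (hv _ _ hD hiso).symm

/-- A sequence of knots which are not separated. -/
theorem seq (n k : ℕ) (hk : n < Nat.fib (k + 3)) (D : Word) (hD : IsKnot D) :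
    ∃ K : ℕ → Word, K 0 = D ∧ (∀ j, IsKnot (K j)) ∧ (∀ i j, Isotopic (K i) (K j) → i = j) ∧
      (∀ j, crossings (K j) = crossings D + j * (2 * 2 ^ (k + 2) + 2)) ∧
      ∀ (A : Type) [AddCommGroup A] (v : Word → A), IsInvariant v → DegreeLE n v →
        ∀ j, v (K j) = v D := by
  obtain ⟨p, hp, h⟩ := step n k hk
  choose f hf1 hf2 hf3 hf4 using h
  let g : ℕ → {D : Word // IsKnot D} := fun j =>
    Nat.rec ⟨D, hD⟩ (fun _ D => ⟨f D.1 D.2, hf1 D.1 D.2⟩) j
  have g1 : ∀ j, (g (j + 1)).1 = f (g j).1 (g j).2 := fun j => rfl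
  have hlt : StrictMono fun j => cnt (R := ZMod p) (g j).1 (fun _ => 0) :=
    strictMono_nat_of_lt_succ fun j => hf2 (g j).1 (g j).2
  refine ⟨fun j => (g j).1, rfl, fun j => (g j).2, fun i j hij => ?_, fun j => ?_,
    fun A _ v hv hn j => ?_⟩
  · exact hlt.injective (cnt_iso (R := ZMod p) hij (fun _ => 0))
  · induction j with
    | zero => show crossings D = _; ring
    | succ j ih =>
      show crossings (f (g j).1 (g j).2) = _
      rw [hf3, ih]
      ring
  · induction j with
    | zero => rfl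
    | succ j ih =>
      show v (f (g j).1 (g j).2) = _
      rw [hf4 _ _ A v hv hn, ih]

/-! ### The exponent -/

/-- The exponent `log 2 / log φ = 1.4404…`. -/
noncomputable def expo : ℝ := Real.log 2 / Real.log Real.goldenRatio

theorem phi_pow_le (j : ℕ) : Real.goldenRatio ^ j ≤ (Nat.fib (j + 2) : ℝ) ∧
    Real.goldenRatio ^ (j + 1) ≤ (Nat.fib (j + 3) : ℝ) := by
  induction j with
  | zero =>
    refine ⟨by simp, ?_⟩
    have : (Nat.fib (0 + 3) : ℝ) = 2 := by norm_num [Nat.fib]
    rw [this, zero_add, pow_one]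
    exact Real.goldenRatio_lt_two.le
  | succ j ih =>
    refine ⟨ih.2, ?_⟩
    have h1 : Real.goldenRatio ^ (j + 1 + 1) =
        Real.goldenRatio ^ (j + 1) + Real.goldenRatio ^ j := by
      have := Real.goldenRatio_sq
      rw [show j + 1 + 1 = j + 2 from rfl, pow_add, this, pow_succ]
      ring
    have h2 : Nat.fib (j + 1 + 3) = Nat.fib (j + 2) + Nat.fib (j + 3) := by
      rw [show j + 1 + 3 = (j + 2) + 2 from rfl, Nat.fib_add_two]
    rw [h1, h2]
    push_cast
    linarith [ih.1, ih.2]

theorem two_pow_eq (j : ℕ) : (2 : ℝ) ^ j = (Real.goldenRatio ^ j) ^ expo := by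
  have h1 : Real.log Real.goldenRatio ≠ 0 := (Real.log_pos Real.one_lt_goldenRatio).ne'
  rw [← Real.rpow_natCast Real.goldenRatio j, ← Real.rpow_mul Real.goldenRatio_pos.le,
    Real.rpow_def_of_pos Real.goldenRatio_pos, expo]
  rw [show Real.log Real.goldenRatio * (↑j * (Real.log 2 / Real.log Real.goldenRatio)) =
    Real.log 2 * j by field_simp]
  rw [← Real.rpow_def_of_pos two_pos, Real.rpow_natCast]

theorem expo_pos : 0 < expo :=
  div_pos (Real.log_pos one_lt_two) (Real.log_pos Real.one_lt_goldenRatio)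

theorem exists_k (n : ℕ) (hn : 1 ≤ n) : ∃ k : ℕ, n < Nat.fib (k + 3) ∧
    (2 : ℝ) ^ (k + 2) ≤ 4 * (n : ℝ) ^ expo := by
  have hex : ∃ k, n < Nat.fib (k + 3) := by
    refine ⟨n + 5, ?_⟩
    have : n + 5 + 3 ≤ Nat.fib (n + 5 + 3) := Nat.le_fib_self (by omega)
    omega
  classical
  have hk := Nat.find_spec hex
  have hmin := fun m => Nat.find_min (H := hex) (m := m)
  set k := Nat.find hex with hkdef
  have hn' : (1 : ℝ) ≤ n := by exact_mod_cast hn
  refine ⟨k, hk, ?_⟩
  cases hk0 : k with
  | zero =>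
    have : (1 : ℝ) ≤ (n : ℝ) ^ expo := Real.one_le_rpow hn' expo_pos.le
    norm_num
    linarith
  | succ j =>
    have h1 := hmin j (by omega)
    have h2 : (Nat.fib (j + 3) : ℝ) ≤ n := by
      exact_mod_cast not_lt.1 h1
    have h3 := (phi_pow_le j).2.trans h2
    have h4 : (2 : ℝ) ^ (j + 1) ≤ (n : ℝ) ^ expo := by
      rw [two_pow_eq]
      exact Real.rpow_le_rpow (pow_nonneg Real.goldenRatio_pos.le _) h3 expo_pos.le
    have h5 : (2 : ℝ) ^ (j + 1 + 2) = 4 * 2 ^ (j + 1) := by rw [pow_add]; ring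
    rw [h5]
    linarith

/-- **Main theorem.** -/
theorem main (n : ℕ) (hn : 1 ≤ n) (D : Word) (hD : IsKnot D) :
    ∃ K : ℕ → Word, K 0 = D ∧ (∀ j, IsKnot (K j)) ∧ (∀ i j, Isotopic (K i) (K j) → i = j) ∧
      (∀ j, (crossings (K j) : ℝ) ≤ crossings D + j * (8 * (n : ℝ) ^ expo + 2)) ∧
      ∀ (A : Type) [AddCommGroup A] (v : Word → A), IsInvariant v → DegreeLE n v →
        ∀ j, v (K j) = v D := by
  obtain ⟨k, hk, hk'⟩ := exists_k n hn
  obtain ⟨K, h1, h2, h3, h4, h5⟩ := seq n k hk D hD
  refine ⟨K, h1, h2, h3, fun j => ?_, h5⟩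
  rw [h4]
  push_cast
  have hj : (0 : ℝ) ≤ j := Nat.cast_nonneg j
  nlinarith

end Pool.Agent.Y466.SH
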