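import Pool.Agent.Y466.SH.Col

/-!
# Colourings of partially closed 3-braids
-/

set_option autoImplicit false

namespace Pool.Agent.Y466.SH

open Pool.Agent.H835R2 Pool.Agent.H835R2.Knot Pool.Agent.Y466.FT
open Matrix

/-- A braid word, `o` places to the right. -/
def sh (o : ℕ) (w : Braid) : Braid := w.map fun l => (l.1, l.2 + o)

/-- The 1-tangle on the strand `o` (directed downwards): the 3-braid `w` on the strands
`o, o + 1, o + 2`, the last two of which are closed. -/
def tangle (o : ℕ) (w : Braid) : Word :=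
  [.birth (o + 1) true, .birth (o + 2) true] ++ draw (sh o w) ++ [.death (o + 2), .death (o + 1)]

/-- The matrix of a letter (Burau representation at `-1`). -/
def m1 : Bool × ℕ → Matrix (Fin 2) (Fin 2) ℤ
  | (true, 0) => !![1, -1; 0, 1]
  | (false, 0) => !![1, 1; 0, 1]
  | (true, _ + 1) => !![1, 0; 1, 1]
  | (false, _ + 1) => !![1, 0; -1, 1]

/-- The matrix of a braid word. -/
def mat (w : Braid) : Matrix (Fin 2) (Fin 2) ℤ := (w.map m1).prod

theorem mat_nil : mat [] = 1 := rfl
theorem mat_cons (l : Bool × ℕ) (w : Braid) : mat (l :: w) = m1 l * mat w := by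
  unfold mat; rw [List.map_cons, List.prod_cons]
theorem mat_append (v w : Braid) : mat (v ++ w) = mat v * mat w := by
  unfold mat; rw [List.map_append, List.prod_append]

theorem det_m1 (l : Bool × ℕ) : (m1 l).det = 1 := by
  obtain ⟨b, i⟩ := l
  cases b <;> cases i <;> simp [m1, Matrix.det_fin_two]

theorem det_mat (w : Braid) : (mat w).det = 1 := by
  induction w with
  | nil => simp [mat_nil]
  | cons l w ih => rw [mat_cons, Matrix.det_mul, det_m1, ih, one_mul]

section
variable {R : Type} [CommRing R]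

/-- The action of a letter. -/
def cr (l : Bool × ℕ) (s : ℕ → R) : ℕ → R := if l.1 then cpos l.2 s else cneg l.2 s

/-- The action of a braid word. -/
def bact : Braid → (ℕ → R) → (ℕ → R)
  | [], s => s
  | l :: w, s => bact w (cr l s)

/-- The differences. -/
def X (o : ℕ) (s : ℕ → R) : Fin 2 → R := ![s o - s (o + 1), s (o + 1) - s (o + 2)]

theorem X_cr (o : ℕ) (l : Bool × ℕ) (hl : l.2 < 2) (s : ℕ → R) :
    X o (cr (l.1, l.2 + o) s) = X o s ᵥ* (m1 l).map (Int.castRingHom R) ∧
    (cr (l.1, l.2 + o) s) o - (cr (l.1, l.2 + o) s) (o + 1) + (cr (l.1, l.2 + o) s) (o + 2) =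
      s o - s (o + 1) + s (o + 2) ∧
    ∀ p, p ≠ o → p ≠ o + 1 → p ≠ o + 2 → (cr (l.1, l.2 + o) s) p = s p := by
  obtain ⟨b, i⟩ := l
  have n1 : ∀ i : ℕ, ¬ (i + 1 + 1 = i) := by intro i; omega
  have n2 : ∀ i : ℕ, ¬ (i = i + 1 + 1) := by intro i; omega
  have n3 : ∀ i : ℕ, ¬ (i + 2 = i + 1) := by intro i; omega
  have n4 : ∀ i : ℕ, ¬ (i + 2 = i) := by intro i; omega
  have hi : i = 0 ∨ i = 1 := by
    have : i < 2 := hl
    omega
  rcases hi with rfl | rfl
  · cases b
    · refine ⟨?_, ?_, fun p h1 h2 h3 => ?_⟩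
      · funext j
        fin_cases j
        · simp [X, cr, cneg, m1, Matrix.vecMul, dotProduct, Fin.sum_univ_two]; ring
        · simp [X, cr, cneg, m1, Matrix.vecMul, dotProduct, Fin.sum_univ_two]
      · simp [cr, cneg]; ring
      · simp [cr, cneg, h1, h2]
    · refine ⟨?_, ?_, fun p h1 h2 h3 => ?_⟩
      · funext j
        fin_cases j
        · simp [X, cr, cpos, m1, Matrix.vecMul, dotProduct, Fin.sum_univ_two]; ring
        · simp [X, cr, cpos, m1, Matrix.vecMul, dotProduct, Fin.sum_univ_two]; ring
      · simp [cr, cpos]; ring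
      · simp [cr, cpos, h1, h2]
  · have e : (1 : ℕ) + o = o + 1 := by omega
    have h4 : ∀ p, p ≠ o + 2 → ¬ (p = o + 1 + 1) := fun p h => h
    cases b
    · refine ⟨?_, ?_, fun p h1 h2 h3 => ?_⟩
      · funext j
        fin_cases j
        · simp [X, cr, cneg, m1, Matrix.vecMul, dotProduct, Fin.sum_univ_two, e, n1, n2]; ring
        · simp [X, cr, cneg, m1, Matrix.vecMul, dotProduct, Fin.sum_univ_two, e, n1, n2]; ring
      · simp [cr, cneg, e, n1, n2]; ring
      · simp [cr, cneg, e, h2, h4 p h3]
    · refine ⟨?_, ?_, fun p h1 h2 h3 => ?_⟩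
      · funext j
        fin_cases j
        · simp [X, cr, cpos, m1, Matrix.vecMul, dotProduct, Fin.sum_univ_two, e, n1, n2]
        · simp [X, cr, cpos, m1, Matrix.vecMul, dotProduct, Fin.sum_univ_two, e, n1, n2]; ring
      · simp [cr, cpos, e, n1, n2]; ring
      · simp [cr, cpos, e, h2, h4 p h3]

theorem X_bact (o : ℕ) (w : Braid) (hw : ∀ l ∈ w, l.2 < 2) (s : ℕ → R) :
    X o (bact (sh o w) s) = X o s ᵥ* (mat w).map (Int.castRingHom R) ∧
    (bact (sh o w) s) o - (bact (sh o w) s) (o + 1) + (bact (sh o w) s) (o + 2) =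
      s o - s (o + 1) + s (o + 2) ∧
    ∀ p, p ≠ o → p ≠ o + 1 → p ≠ o + 2 → (bact (sh o w) s) p = s p := by
  induction w generalizing s with
  | nil =>
    refine ⟨?_, rfl, fun _ _ _ _ => rfl⟩
    rw [mat_nil, Matrix.map_one _ (map_zero _) (map_one _), Matrix.vecMul_one]
    rfl
  | cons l w ih =>
    obtain ⟨h1, h2, h3⟩ := X_cr o l (hw l List.mem_cons_self) s
    obtain ⟨i1, i2, i3⟩ := ih (fun x hx => hw x (List.mem_cons_of_mem _ hx))
      (cr (l.1, l.2 + o) s)
    refine ⟨?_, i2.trans h2, fun p p1 p2 p3 => (i3 p p1 p2 p3).trans (h3 p p1 p2 p3)⟩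
    show X o (bact (sh o w) (cr (l.1, l.2 + o) s)) = _
    rw [i1, h1, mat_cons, Matrix.map_mul, Matrix.vecMul_vecMul]

variable [Fintype R] [DecidableEq R]

theorem cnt_draw (w : Braid) (y : Word) (s : ℕ → R) : cnt (draw w ++ y) s = cnt y (bact w s) := by
  induction w generalizing s with
  | nil => rfl
  | cons l w ih =>
    obtain ⟨b, i⟩ := l
    cases b
    · exact ih _
    · exact ih _

/-- The number of the fixed vectors of the matrix of a braid word. -/
def fixN (R : Type) [CommRing R] [Fintype R] [DecidableEq R] (w : Braid) : ℕ :=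
  (Finset.univ.filter fun v : Fin 2 → R => v ᵥ* (mat w).map (Int.castRingHom R) = v).card

theorem sum_pairs (a : R) (f : (Fin 2 → R) → ℕ) :
    ∑ b : R, ∑ c : R, f ![a - b, b - c] = ∑ v : Fin 2 → R, f v := by
  have h1 : ∀ b : R, ∑ c : R, f ![a - b, b - c] = ∑ y : R, f ![a - b, y] := fun b =>
    Equiv.sum_comp (Equiv.subLeft b) (fun y => f ![a - b, y])
  simp only [h1]
  have h2 : ∑ b : R, ∑ y : R, f ![a - b, y] = ∑ x : R, ∑ y : R, f ![x, y] :=
    Equiv.sum_comp (Equiv.subLeft a) (fun x => ∑ y : R, f ![x, y])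
  rw [h2, ← Fintype.sum_prod_type (fun z : R × R => f ![z.1, z.2])]
  exact (Equiv.sum_comp (piFinTwoEquiv fun _ => R).symm f)

/-- **The colourings of the 1-tangle.** -/
theorem cnt_tangle (o : ℕ) (w : Braid) (hw : ∀ l ∈ w, l.2 < 2) (y : Word) (s : ℕ → R) :
    cnt (tangle o w ++ y) s = fixN R w * cnt y s := by
  have key : ∀ b c : R, cnt (draw (sh o w) ++ ([.death (o + 2), .death (o + 1)] ++ y))
      (ins (o + 2) c (ins (o + 1) b s)) =
      if ![s o - b, b - c] ᵥ* (mat w).map (Int.castRingHom R) = ![s o - b, b - c] then cnt y s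
      else 0 := by
    intro b c
    rw [cnt_draw]
    set t := ins (o + 2) c (ins (o + 1) b s) with ht
    obtain ⟨h1, h2, h3⟩ := X_bact (R := R) o w hw t
    set t' := bact (sh o w) t with ht'
    have e0 : t o = s o := by
      rw [ht]; unfold ins; rw [if_pos (by omega), if_pos (by omega)]
    have e1 : t (o + 1) = b := by
      rw [ht]; unfold ins; rw [if_pos (by omega), if_neg (by omega), if_pos (by omega)]
    have e2 : t (o + 2) = c := by
      rw [ht]; unfold ins; rw [if_neg (by omega), if_pos (by omega)]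
    have e3 : t (o + 3) = c := by
      rw [ht]; unfold ins; rw [if_neg (by omega), if_pos (by omega)]
    have e4 : t (o + 4) = b := by
      rw [ht]; unfold ins
      rw [if_neg (by omega), if_neg (by omega), if_neg (by omega), if_pos (by omega)]
    have e5 : ∀ p, o + 5 ≤ p → t p = s (p - 4) := by
      intro p hp
      rw [ht]; unfold ins
      rw [if_neg (by omega), if_neg (by omega), if_neg (by omega), if_neg (by omega)]
      congr 1
    have e6 : ∀ p, p < o → t p = s p := by
      intro p hp
      rw [ht]; unfold ins; rw [if_pos (by omega), if_pos (by omega)]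
    have X1 : X o t = ![s o - b, b - c] := by
      unfold X; rw [e0, e1, e2]
    have X2 : X o t' = ![t' o - t' (o + 1), t' (o + 1) - t' (o + 2)] := rfl
    rw [X1, X2] at h1
    show (if t' (o + 2) = t' (o + 2 + 1) then
      (if (rem (o + 2) t') (o + 1) = (rem (o + 2) t') (o + 1 + 1) then
        cnt y (rem (o + 1) (rem (o + 2) t')) else 0) else 0) = _
    have r1 : (rem (o + 2) t') (o + 1) = t' (o + 1) := by
      unfold rem; rw [if_pos (by omega)]
    have r2 : (rem (o + 2) t') (o + 1 + 1) = b := by
      unfold rem; rw [if_neg (by omega)]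
      rw [h3 _ (by omega) (by omega) (by omega)]
      exact e4
    have r3 : t' (o + 2 + 1) = c := by
      rw [h3 _ (by omega) (by omega) (by omega)]
      exact e3
    rw [r1, r2, r3]
    have hiff : (![s o - b, b - c] ᵥ* (mat w).map (Int.castRingHom R) = ![s o - b, b - c]) ↔
        (t' (o + 2) = c ∧ t' (o + 1) = b) := by
      rw [← h1]
      rw [e0, e1, e2] at h2
      constructor
      · intro h
        have g0 := congrFun h 0
        have g1 := congrFun h 1
        simp only [Matrix.cons_val_zero, Matrix.cons_val_one] at g0 g1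
        have g2 : t' (o + 2) = c := by linear_combination h2 - g0
        refine ⟨g2, by linear_combination g1 + g2⟩
      · rintro ⟨g1, g2⟩
        have g3 : t' o = s o := by
          rw [g1, g2] at h2
          linear_combination h2
        rw [g1, g2, g3]
    by_cases hc : t' (o + 2) = c ∧ t' (o + 1) = b
    · rw [if_pos hc.1, if_pos hc.2, if_pos (hiff.2 hc)]
      congr 1
      rw [e0, e1, e2, hc.1, hc.2] at h2
      have g3 : t' o = s o := by linear_combination h2
      funext p
      show (if p < o + 1 then (rem (o + 2) t') p else (rem (o + 2) t') (p + 2)) = s p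
      split_ifs with hp
      · show (if p < o + 2 then t' p else t' (p + 2)) = s p
        rw [if_pos (by omega)]
        by_cases hp' : p = o
        · rw [hp', g3]
        · rw [h3 p hp' (by omega) (by omega), e6 p (by omega)]
      · show (if p + 2 < o + 2 then t' (p + 2) else t' (p + 2 + 2)) = s p
        rw [if_neg (by omega), h3 _ (by omega) (by omega) (by omega), e5 _ (by omega)]
        congr 1
    · rw [if_neg (fun h => hc (hiff.1 h))]
      by_cases h4 : t' (o + 2) = c
      · rw [if_pos h4, if_neg (fun h => hc ⟨h4, h⟩)]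
      · rw [if_neg h4]
  have e : tangle o w ++ y = .birth (o + 1) true :: .birth (o + 2) true ::
      (draw (sh o w) ++ ([.death (o + 2), .death (o + 1)] ++ y)) := by
    simp [tangle]
  rw [e]
  show ∑ b : R, ∑ c : R, cnt (draw (sh o w) ++ ([.death (o + 2), .death (o + 1)] ++ y))
      (ins (o + 2) c (ins (o + 1) b s)) = _
  simp only [key]
  rw [sum_pairs (s o) (fun v => if v ᵥ* (mat w).map (Int.castRingHom R) = v then cnt y s else 0)]
  rw [← Finset.sum_filter, Finset.sum_const, smul_eq_mul]
  rfl

end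

/-- If the determinant of the closed braid is divisible by `p`, there are non-trivial colourings. -/
theorem two_le_fixN (p : ℕ) [Fact p.Prime] (w : Braid) (h : (p : ℤ) ∣ 2 - (mat w).trace) :
    2 ≤ fixN (ZMod p) w := by
  have hdet : ((mat w).map (Int.castRingHom (ZMod p)) - 1).det = 0 := by
    have h1 : ((mat w) - 1).det = 2 - (mat w).trace := by
      have h2 := det_mat w
      rw [Matrix.det_fin_two] at h2
      rw [Matrix.det_fin_two, Matrix.trace_fin_two]
      simp only [Matrix.sub_apply, Matrix.one_apply_eq]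
      simp
      linear_combination h2
    have h3 : (mat w).map (Int.castRingHom (ZMod p)) - 1 =
        ((mat w) - 1).map (Int.castRingHom (ZMod p)) := by
      rw [Matrix.map_sub _ (fun a b => map_sub _ a b), Matrix.map_one _ (map_zero _) (map_one _)]
    rw [h3]
    have h4 := RingHom.map_det (Int.castRingHom (ZMod p)) ((mat w) - 1)
    rw [RingHom.mapMatrix_apply] at h4
    rw [← h4, h1]
    obtain ⟨c, hc⟩ := h
    rw [hc]
    simp
  obtain ⟨v, hv, hv'⟩ := Matrix.exists_vecMul_eq_zero_iff.2 hdet
  have hfix : v ᵥ* (mat w).map (Int.castRingHom (ZMod p)) = v := by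
    rw [Matrix.vecMul_sub, Matrix.vecMul_one] at hv'
    exact sub_eq_zero.1 hv'
  have hsub : ({0, v} : Finset (Fin 2 → ZMod p)) ⊆
      Finset.univ.filter fun v : Fin 2 → ZMod p =>
        v ᵥ* (mat w).map (Int.castRingHom (ZMod p)) = v := by
    intro x hx
    rw [Finset.mem_insert, Finset.mem_singleton] at hx
    rw [Finset.mem_filter]
    refine ⟨Finset.mem_univ _, ?_⟩
    rcases hx with rfl | rfl
    · exact Matrix.zero_vecMul _
    · exact hfix
  have h5 := Finset.card_le_card hsub
  rw [Finset.card_pair (Ne.symm hv)] at h5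
  exact h5

end Pool.Agent.Y466.SH
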