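import Pool.Agent.Y466.SH.Free
import Pool.Agent.Y466.SH.Three

/-!
# Traces of iterated commutators
-/

set_option autoImplicit false

namespace Pool.Agent.Y466.SH

open Pool.Agent.Y466.FT
open Matrix

abbrev SL : Type := Matrix.SpecialLinearGroup (Fin 2) ℤ

/-- The trace. -/
def tr (X : SL) : ℤ := (X : Matrix (Fin 2) (Fin 2) ℤ).trace

theorem tr_eq (X : SL) : tr X = X.1 0 0 + X.1 1 1 := Matrix.trace_fin_two _

theorem det_eq (X : SL) : X.1 0 0 * X.1 1 1 - X.1 0 1 * X.1 1 0 = 1 := by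
  have := X.2
  rwa [Matrix.det_fin_two] at this

theorem tr_mul_comm (X Y : SL) : tr (X * Y) = tr (Y * X) := by
  unfold tr
  rw [Matrix.SpecialLinearGroup.coe_mul, Matrix.SpecialLinearGroup.coe_mul, Matrix.trace_mul_comm]

theorem tr_conj (X Y : SL) : tr (Y⁻¹ * X * Y) = tr X := by
  rw [tr_mul_comm, ← mul_assoc, mul_inv_cancel, one_mul]

theorem inv00 (X : SL) : (X⁻¹).1 0 0 = X.1 1 1 := by
  rw [Matrix.SpecialLinearGroup.SL2_inv_expl]; rfl
theorem inv01 (X : SL) : (X⁻¹).1 0 1 = -X.1 0 1 := by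
  rw [Matrix.SpecialLinearGroup.SL2_inv_expl]; rfl
theorem inv10 (X : SL) : (X⁻¹).1 1 0 = -X.1 1 0 := by
  rw [Matrix.SpecialLinearGroup.SL2_inv_expl]; rfl
theorem inv11 (X : SL) : (X⁻¹).1 1 1 = X.1 0 0 := by
  rw [Matrix.SpecialLinearGroup.SL2_inv_expl]; rfl

/-- The trace of a commutator. -/
theorem tr_comm (X Y : SL) : tr (X⁻¹ * Y⁻¹ * X * Y) =
    tr X ^ 2 + tr Y ^ 2 + tr (X * Y) ^ 2 - tr X * tr Y * tr (X * Y) - 2 := by
  have hX := det_eq X
  have hY := det_eq Y
  simp only [tr_eq, Matrix.SpecialLinearGroup.coe_mul, Matrix.mul_apply, Fin.sum_univ_two,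
    inv00, inv01, inv10, inv11]
  generalize X.1 0 0 = a at *
  generalize X.1 0 1 = b at *
  generalize X.1 1 0 = c at *
  generalize X.1 1 1 = d at *
  generalize Y.1 0 0 = e at *
  generalize Y.1 0 1 = f at *
  generalize Y.1 1 0 = g at *
  generalize Y.1 1 1 = h at *
  linear_combination (a + d) ^ 2 * hY + (e + h) ^ 2 * hX - 2 * (e * h - f * g) * hX - 2 * hY

/-- `tr (A X) + tr (A X⁻¹) = tr A tr X`. -/
theorem tr_add (A X : SL) : tr (A * X) + tr (A * X⁻¹) = tr A * tr X := by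
  simp only [tr_eq, Matrix.SpecialLinearGroup.coe_mul, Matrix.mul_apply, Fin.sum_univ_two,
    inv00, inv01, inv10, inv11]
  ring

/-- The matrix of `a`. -/
def A2 : SL := ⟨!![1, -2; 0, 1], by simp [Matrix.det_fin_two]⟩
/-- The matrix of `b`. -/
def B2 : SL := ⟨!![1, 0; 2, 1], by simp [Matrix.det_fin_two]⟩

/-- The representation. -/
def rho : FreeGroup Bool →* SL := FreeGroup.lift fun x => if x then B2 else A2

theorem rho_false : rho (FreeGroup.mk [(false, true)]) = A2 := by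
  show rho (FreeGroup.of false) = A2
  unfold rho
  rw [FreeGroup.lift_apply_of]
  rfl

theorem rho_true : rho (FreeGroup.mk [(true, true)]) = B2 := by
  show rho (FreeGroup.of true) = B2
  unfold rho
  rw [FreeGroup.lift_apply_of]
  rfl

/-- The trace of `c k`. -/
def xk (k : ℕ) : ℤ := tr (rho (FreeGroup.mk (cw k)))

theorem xk_zero : xk 0 = 2 := by
  unfold xk
  rw [show cw 0 = [(true, true)] from rfl, rho_true, tr_eq]
  simp [B2]

theorem mk_cw_one : FreeGroup.mk (cw 1) = FreeGroup.mk [(false, true)] := rfl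

theorem xk_one : xk 1 = 2 := by
  unfold xk
  rw [mk_cw_one, rho_false, tr_eq]
  simp [A2]

theorem xk_two : xk 2 = 18 := by
  unfold xk
  rw [cw_rec 0, map_mul, map_mul, map_mul, map_inv, map_inv, tr_comm, mk_cw_one, rho_false,
    show cw 0 = [(true, true)] from rfl, rho_true]
  simp only [tr_eq, Matrix.SpecialLinearGroup.coe_mul, Matrix.mul_apply, Fin.sum_univ_two]
  simp [A2, B2]

theorem xk_rec (k : ℕ) : xk (k + 3) =
    xk (k + 2) ^ 2 + 2 * xk (k + 1) ^ 2 - xk (k + 2) * xk (k + 1) ^ 2 - 2 := by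
  have hz : tr (rho (FreeGroup.mk (cw (k + 2))) * rho (FreeGroup.mk (cw (k + 1)))) =
      xk (k + 1) := by
    rw [tr_mul_comm, cw_rec k, map_mul, map_mul, map_mul, map_inv, map_inv]
    have : rho (FreeGroup.mk (cw (k + 1))) * ((rho (FreeGroup.mk (cw (k + 1))))⁻¹ *
      (rho (FreeGroup.mk (cw k)))⁻¹ * rho (FreeGroup.mk (cw (k + 1))) *
      rho (FreeGroup.mk (cw k))) = (rho (FreeGroup.mk (cw k)))⁻¹ *
      rho (FreeGroup.mk (cw (k + 1))) * rho (FreeGroup.mk (cw k)) := by group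
    rw [this, tr_conj]
    rfl
  have h1 : xk (k + 3) = tr ((rho (FreeGroup.mk (cw (k + 2))))⁻¹ *
      (rho (FreeGroup.mk (cw (k + 1))))⁻¹ * rho (FreeGroup.mk (cw (k + 2))) *
      rho (FreeGroup.mk (cw (k + 1)))) := by
    unfold xk
    rw [cw_rec (k + 1), map_mul, map_mul, map_mul, map_inv, map_inv]
  rw [h1, tr_comm, hz]
  show xk (k + 2) ^ 2 + xk (k + 1) ^ 2 + xk (k + 1) ^ 2 - xk (k + 2) * xk (k + 1) * xk (k + 1) - 2
    = _
  ring

/-- The 2-adic orders of the numbers `tr c_k - 2`. -/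
theorem val (k : ℕ) : ∃ (u v : ℕ) (a b : ℤ), xk (k + 2) - 2 = 2 ^ u * a ∧
    xk (k + 3) - 2 = 2 ^ v * b ∧ Odd a ∧ Odd b ∧ 4 ≤ u ∧ u + 2 < v := by
  induction k with
  | zero =>
    refine ⟨4, 8, 1, 1, ?_, ?_, odd_one, odd_one, le_rfl, by norm_num⟩
    · rw [xk_two]; norm_num
    · have := xk_rec 0
      rw [show 0 + 2 = 2 from rfl, show 0 + 1 = 1 from rfl, xk_two, xk_one] at this
      rw [this]; norm_num
  | succ k ih =>
    obtain ⟨u, v, a, b, h1, h2, ha, hb, hu, hv⟩ := ih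
    refine ⟨v, v + (u + 2), b, b * (2 ^ (v - (u + 2)) * b - a * (2 ^ (u - 2) * a + 1)), h2, ?_, hb,
      ?_, by omega, by omega⟩
    · have h3 := xk_rec (k + 1)
      rw [show k + 1 + 3 = k + 4 from rfl, show k + 1 + 2 = k + 3 from rfl,
        show k + 1 + 1 = k + 2 from rfl] at h3
      have e1 : (2 : ℤ) ^ v = 2 ^ (u + 2) * 2 ^ (v - (u + 2)) := by
        rw [← pow_add]; congr 1; omega
      have e2 : (2 : ℤ) ^ u = 4 * 2 ^ (u - 2) := by
        rw [show (4 : ℤ) = 2 ^ 2 by norm_num, ← pow_add]; congr 1; omega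
      have e3 : (2 : ℤ) ^ (u + 2) = 4 * 2 ^ u := by rw [pow_add]; ring
      have e4 : xk (k + 3) = 2 ^ v * b + 2 := by linear_combination h2
      have e5 : xk (k + 2) = 2 ^ u * a + 2 := by linear_combination h1
      rw [show k + 1 + 3 = k + 4 from rfl, h3, e4, e5, pow_add, e3]
      have e6 : (2 : ℤ) ^ v = 4 * 2 ^ u * 2 ^ (v - (u + 2)) := by rw [e1, e3]
      set T := (2 : ℤ) ^ (v - (u + 2))
      set S := (2 : ℤ) ^ (u - 2)
      rw [e6, e2]
      ring
    · refine hb.mul ?_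
      have o1 : Even ((2 : ℤ) ^ (v - (u + 2)) * b) := by
        refine Even.mul_right ?_ _
        rw [show v - (u + 2) = (v - (u + 2) - 1) + 1 by omega, pow_succ]
        exact Even.mul_left even_two _
      have o2 : Even ((2 : ℤ) ^ (u - 2) * a) := by
        refine Even.mul_right ?_ _
        rw [show u - 2 = (u - 2 - 1) + 1 by omega, pow_succ]
        exact Even.mul_left even_two _
      exact o1.sub_odd (ha.mul o2.add_one)

theorem xk_ne (k : ℕ) : xk (k + 2) ≠ 2 ∧ xk (k + 2) ≠ 4 ∧ xk (k + 2) ≠ 6 := by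
  obtain ⟨u, v, a, b, h1, -, ha, -, hu, -⟩ := val k
  have h2 : a ≠ 0 := by
    rintro rfl
    exact absurd ha (by simp)
  have h3 : (16 : ℤ) ∣ xk (k + 2) - 2 := by
    rw [h1, show (16 : ℤ) = 2 ^ 4 by norm_num]
    exact Dvd.dvd.mul_right (pow_dvd_pow 2 hu) a
  have h4 : xk (k + 2) - 2 ≠ 0 := by
    rw [h1]
    exact mul_ne_zero (pow_ne_zero _ two_ne_zero) h2
  refine ⟨fun h => h4 (by rw [h]; rfl), fun h => ?_, fun h => ?_⟩
  · rw [h] at h3; norm_num at h3
  · rw [h] at h3; norm_num at h3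

/-! ### Braid words -/

/-- The 3-braid of a word: `a = σ₁²`, `b = σ₂²`. -/
def bw (L : FL) : Braid :=
  (L.map fun l => [(l.2, if l.1 then 1 else 0), (l.2, if l.1 then 1 else 0)]).flatten

theorem bw_cons (l : Bool × Bool) (L : FL) : bw (l :: L) =
    [(l.2, if l.1 then 1 else 0), (l.2, if l.1 then 1 else 0)] ++ bw L := by
  unfold bw; rw [List.map_cons, List.flatten_cons]

theorem bw_append (L L' : FL) : bw (L ++ L') = bw L ++ bw L' := by
  unfold bw; rw [List.map_append, List.flatten_append]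

theorem bw_lt (L : FL) : ∀ l ∈ bw L, l.2 < 2 := by
  induction L with
  | nil => intro l hl; exact absurd hl (by simp [bw])
  | cons x L ih =>
    intro l hl
    rw [bw_cons, List.mem_append] at hl
    rcases hl with hl | hl
    · have : l = (x.2, if x.1 then 1 else 0) := by simpa using hl
      rw [this]
      show (if x.1 then 1 else 0) < 2
      split_ifs <;> omega
    · exact ih l hl

theorem length_bw (L : FL) : (bw L).length = 2 * L.length := by
  induction L with
  | nil => rfl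
  | cons x L ih =>
    rw [bw_cons, List.length_append, ih, List.length_cons]
    simp; omega

theorem mat_bw (L : FL) : mat (bw L) = (rho (FreeGroup.mk L)).1 := by
  induction L with
  | nil =>
    have : FreeGroup.mk ([] : FL) = 1 := rfl
    rw [this, map_one]
    rfl
  | cons x L ih =>
    have e : FreeGroup.mk (x :: L) = FreeGroup.mk [x] * FreeGroup.mk L := by
      rw [FreeGroup.mul_mk]; rfl
    rw [bw_cons, mat_append, ih, e, map_mul, Matrix.SpecialLinearGroup.coe_mul]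
    congr 1
    obtain ⟨x, s⟩ := x
    cases x <;> cases s
    · have : FreeGroup.mk [((false, false) : Bool × Bool)] = (FreeGroup.mk [(false, true)])⁻¹ := rfl
      rw [this, map_inv, rho_false, Matrix.SpecialLinearGroup.SL2_inv_expl]
      simp [mat, m1, A2]
      rfl
    · rw [rho_false]
      simp [mat, m1, A2]
    · have : FreeGroup.mk [((true, false) : Bool × Bool)] = (FreeGroup.mk [(true, true)])⁻¹ := rfl
      rw [this, map_inv, rho_true, Matrix.SpecialLinearGroup.SL2_inv_expl]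
      simp [mat, m1, B2]
      rfl
    · rw [rho_true]
      simp [mat, m1, B2]

/-- The matrix of `σ₁ σ₂`. -/
def A0 : SL := ⟨mat [(true, 0), (true, 1)], det_mat _⟩

theorem tr_A0 : tr A0 = 1 := by
  rw [tr_eq]
  simp [A0, mat, m1]

/-- One of the two closures of `σ₁ σ₂ c_k^{±1}` has non-trivial colourings. -/
theorem exists_colour (k : ℕ) : ∃ L : FL, (L = cw (k + 2) ∨ L = finv (cw (k + 2))) ∧
    ∃ p : ℕ, ∃ _ : Fact p.Prime, 2 ≤ fixN (ZMod p) ([(true, 0), (true, 1)] ++ bw L) := by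
  have key : ∃ L : FL, (L = cw (k + 2) ∨ L = finv (cw (k + 2))) ∧
      (2 - (mat ([(true, 0), (true, 1)] ++ bw L)).trace).natAbs ≠ 1 := by
    by_contra hcon
    push Not at hcon
    have h1 := hcon _ (Or.inl rfl)
    have h2 := hcon _ (Or.inr rfl)
    rw [mat_append, mat_bw] at h1 h2
    rw [mk_finv, map_inv] at h2
    have e1 : (mat [(true, 0), (true, 1)] * (rho (FreeGroup.mk (cw (k + 2)))).1).trace =
        tr (A0 * rho (FreeGroup.mk (cw (k + 2)))) := rfl
    have e2 : (mat [(true, 0), (true, 1)] * ((rho (FreeGroup.mk (cw (k + 2))))⁻¹).1).trace =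
        tr (A0 * (rho (FreeGroup.mk (cw (k + 2))))⁻¹) := rfl
    rw [e1] at h1
    rw [e2] at h2
    have h3 := tr_add A0 (rho (FreeGroup.mk (cw (k + 2))))
    rw [tr_A0, one_mul] at h3
    obtain ⟨n1, n2, n3⟩ := xk_ne k
    unfold xk at n1 n2 n3
    rw [← h3] at n1 n2 n3
    omega
  obtain ⟨L, hL, hne⟩ := key
  obtain ⟨p, hp, hdvd⟩ := Nat.exists_prime_and_dvd hne
  refine ⟨L, hL, p, ⟨hp⟩, ?_⟩
  haveI : Fact p.Prime := ⟨hp⟩
  exact two_le_fixN p _ (Int.natCast_dvd.2 hdvd)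

end Pool.Agent.Y466.SH
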